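import Pool.Agent.Zk87.MI.Rk

/-!
# All layers on small matrices
-/

set_option autoImplicit false
set_option linter.unusedSectionVars false

namespace Pool.Agent.Zk87.MI

open Pool.Agent.H777R4.DM
open Pool.Agent.R241.DL (IN blk blk_rot blk_rev blk_one)
open Pool.Agent.Zk87.PL

section

variable {K : Type} [Field K] {n d : ℕ}

/-- matrices of small rank are products -/
theorem fac (M : Matrix (Fin n) (Fin n) K) (h : M.rank ≤ d) :
    ∃ (P : Matrix (Fin n) (Fin d) K) (Q : Matrix (Fin d) (Fin n) K), M = P * Q := by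
  have h1 : Module.finrank K (LinearMap.range M.mulVecLin) ≤ Module.finrank K (Fin d → K) := by
    rw [Module.finrank_fin_fun]
    exact h
  obtain ⟨j, hj⟩ := finrank_le_iff_exists_linearMap.1 h1
  obtain ⟨g, hg⟩ := j.exists_leftInverse_of_injective (LinearMap.ker_eq_bot.2 hj)
  refine ⟨LinearMap.toMatrix' ((LinearMap.range M.mulVecLin).subtype ∘ₗ g),
    LinearMap.toMatrix' (j ∘ₗ M.mulVecLin.rangeRestrict), ?_⟩
  rw [← LinearMap.toMatrix'_comp]
  have h2 : ((LinearMap.range M.mulVecLin).subtype ∘ₗ g) ∘ₗ j ∘ₗ M.mulVecLin.rangeRestrict =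
      M.mulVecLin := by
    refine LinearMap.ext fun v => ?_
    have h3 := LinearMap.congr_fun hg (M.mulVecLin.rangeRestrict v)
    simp only [LinearMap.comp_apply, LinearMap.id_apply] at h3 ⊢
    rw [h3]
    rfl
  rw [h2]
  exact (LinearMap.toMatrix'_toLin' M).symm

/-- over an algebraically closed field a matrix is a scalar plus a singular matrix -/
theorem singular [IsAlgClosed K] (b : Matrix (Fin (d + 1)) (Fin (d + 1)) K) :
    ∃ z : K, (b - z • (1 : Matrix (Fin (d + 1)) (Fin (d + 1)) K)).rank ≤ d := by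
  obtain ⟨z, hz⟩ := IsAlgClosed.exists_root b.charpoly (by
    rw [Matrix.charpoly_degree_eq_dim, Fintype.card_fin]
    exact_mod_cast Nat.succ_ne_zero d)
  refine ⟨z, ?_⟩
  rw [Polynomial.IsRoot, Matrix.eval_charpoly] at hz
  obtain ⟨v, hv, hv0⟩ := Matrix.exists_mulVec_eq_zero_iff.2 hz
  set M := b - z • (1 : Matrix (Fin (d + 1)) (Fin (d + 1)) K) with hM
  have h1 : M.mulVec v = 0 := by
    have : M = -((Matrix.scalar (Fin (d + 1))) z - b) := by
      rw [hM, neg_sub]
      congr 1
      rw [Matrix.scalar_apply, Matrix.smul_one_eq_diagonal]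
    rw [this, Matrix.neg_mulVec, hv0, neg_zero]
  have h2 := LinearMap.finrank_range_add_finrank_ker M.mulVecLin
  rw [Module.finrank_fin_fun] at h2
  have h3 : 0 < Module.finrank K (LinearMap.ker M.mulVecLin) := by
    rw [Module.finrank_pos_iff_exists_ne_zero]
    refine ⟨⟨v, h1⟩, fun h => hv ?_⟩
    exact congrArg Subtype.val h
  have h4 : M.rank = Module.finrank K (LinearMap.range M.mulVecLin) := rfl
  omega

end

section

variable {R R' : Type} [Ring R] [Algebra ℚ R] [Ring R'] [Algebra ℚ R']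

theorem pt_map (f : R →+* R') (k : ℕ) (a b : R) (ψ : A) :
    f (pt k a b ψ) = pt k (f a) (f b) ψ := by
  let F : A →ₗ[ℚ] R' :=
    { toFun := fun φ => f (pt k a b φ)
      map_add' := by intro p q; simp
      map_smul' := by intro p q; rw [map_smul, map_rat_smul]; rfl }
  have h : F = pt k (f a) (f b) := by
    refine lin_ext fun u => ?_
    show f (pt k a b (wd u)) = _
    unfold pt
    rw [lext_wd, lext_wd]
    split_ifs with h1
    · unfold wv
      rw [map_list_prod, List.map_map]
      congr 2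
      funext i
      simp only [Function.comp_apply]
      split_ifs <;> rfl
    · exact map_zero f
  exact LinearMap.congr_fun h ψ

end

section

variable {K : Type} [Field K] [CharZero K] {n N k : ℕ} {ψ : A}

theorem pt_scalar (hk : 2 ≤ k) (hL : ψ ∈ LieX) (a b : Matrix (Fin n) (Fin n) K) (z : K) :
    pt k a (b - z • 1) ψ = pt k a b ψ := by
  have h := pt_shift k hk a (b - z • 1) (z • 1) (fun r => by simp) hL
  rw [sub_add_cancel] at h
  exact h.symm

/-- both parities: `B` of rank one up to a scalar -/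
theorem trace_one (h : IsDM ψ) (hN : LenHom ψ N) (hm : ∀ u, co ψ u ≠ 0 → k ≤ u.count 0)
    (hk : 2 ≤ k) (a b : Matrix (Fin n) (Fin n) K) (z : K) (hb : (b - z • 1).rank ≤ 1) :
    (b * pt k a b ψ).trace = 0 := by
  obtain ⟨P, Q, hPQ⟩ := fac (b - z • 1) hb
  have h1 : ((b - z • 1) * pt k a (b - z • 1) ψ).trace = 0 := by
    rw [trace_pt hN, hPQ, TT_PQ]
    exact TT_one _ (by omega) (fun L hL => blk_rot h hN hm hk 1 L hL)
      (fun x y u hu => blk_one h hN hm hk x y u hu) _
  rw [pt_scalar hk h.mem, Matrix.sub_mul, Matrix.trace_sub, Matrix.smul_mul, Matrix.one_mul,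
    Matrix.trace_smul, pt_trace k hk a b h.mem, smul_zero, sub_zero] at h1
  exact h1

/-- wrong parity: `B` of rank two up to a scalar -/
theorem trace_two (h : IsDM ψ) (hN : LenHom ψ N) (hm : ∀ u, co ψ u ≠ 0 → k ≤ u.count 0)
    (hk : 2 ≤ k) (hodd : Odd (N + k)) (a b : Matrix (Fin n) (Fin n) K) (z : K)
    (hb : (b - z • 1).rank ≤ 2) : (b * pt k a b ψ).trace = 0 := by
  obtain ⟨P, Q, hPQ⟩ := fac (b - z • 1) hb
  have hs : (-1 : ℚ) ^ (N + 1) = (-1) ^ k := by
    rcases Nat.even_or_odd N with hN' | hN'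
    · have hk' : Odd k := by
        rcases Nat.even_or_odd k with h' | h'
        · exact absurd (hN'.add h') (Nat.not_even_iff_odd.2 hodd)
        · exact h'
      rw [hN'.add_one.neg_one_pow, hk'.neg_one_pow]
    · have hk' : Even k := by
        rcases Nat.even_or_odd k with h' | h'
        · exact h'
        · exact absurd (hN'.add_odd h') (Nat.not_even_iff_odd.2 hodd)
      rw [hN'.add_one.neg_one_pow, hk'.neg_one_pow]
  have h1 : ((b - z • 1) * pt k a (b - z • 1) ψ).trace = 0 := by
    rw [trace_pt hN, hPQ, TT_PQ]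
    exact TT_two _ (by omega) (fun L hL => blk_rot h hN hm hk 1 L hL)
      (fun x y u hu => blk_one h hN hm hk x y u hu)
      (fun L => by rw [blk_rev h hN, hs]) _
  rw [pt_scalar hk h.mem, Matrix.sub_mul, Matrix.trace_sub, Matrix.smul_mul, Matrix.one_mul,
    Matrix.trace_smul, pt_trace k hk a b h.mem, smul_zero, sub_zero] at h1
  exact h1

theorem pt_zero_of (h : IsDM ψ) (hN : LenHom ψ N) (hm : ∀ u, co ψ u ≠ 0 → k ≤ u.count 0)
    (hk : 2 ≤ k) (a b : Matrix (Fin n) (Fin n) K)
    (hv : ∀ (i j : Fin n) (r : K), ((b + r • Matrix.single j i 1) *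
      pt k a (b + r • Matrix.single j i 1) ψ).trace = 0) : pt k a b ψ = 0 := by
  refine Matrix.ext fun i j => ?_
  have h1 := grad hN (fun t L hL => blk_rot h hN hm hk t L hL) a b (Matrix.single j i 1)
    (fun r => by rw [← trace_pt hN]; exact hv i j r)
  rw [Matrix.trace_single_mul] at h1
  simpa using h1

/-- wrong parity: the layer vanishes if `B` is of rank one up to a scalar -/
theorem pt_rank_one (h : IsDM ψ) (hN : LenHom ψ N) (hm : ∀ u, co ψ u ≠ 0 → k ≤ u.count 0)
    (hk : 2 ≤ k) (hodd : Odd (N + k)) (a b : Matrix (Fin n) (Fin n) K) (z : K)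
    (hb : (b - z • 1).rank ≤ 1) : pt k a b ψ = 0 := by
  refine pt_zero_of h hN hm hk a b fun i j r => ?_
  refine trace_two h hN hm hk hodd a _ z ?_
  obtain ⟨P, Q, hPQ⟩ := fac (b - z • 1) hb
  let P' : Matrix (Fin n) (Fin 2) K := fun x t => if t = 0 then P x 0 else if x = j then r else 0
  let Q' : Matrix (Fin 2) (Fin n) K := fun t y => if t = 0 then Q 0 y else if y = i then 1 else 0
  have h1 : b + r • Matrix.single j i 1 - z • 1 = P' * Q' := by
    have h2 : b + r • Matrix.single j i 1 - z • 1 = (b - z • 1) + r • Matrix.single j i 1 := by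
      abel
    rw [h2, hPQ]
    refine Matrix.ext fun p q => ?_
    have e0 : (P' * Q') p q = P' p 0 * Q' 0 q + P' p 1 * Q' 1 q := by
      rw [Matrix.mul_apply, Fin.sum_univ_two]
    have e1 : (P * Q) p q = P p 0 * Q 0 q := by
      rw [Matrix.mul_apply, Fin.sum_univ_one]
    have e2 : P' p 0 = P p 0 := rfl
    have e3 : Q' 0 q = Q 0 q := rfl
    have e4 : P' p 1 = if p = j then r else 0 := rfl
    have e5 : Q' 1 q = if q = i then 1 else 0 := rfl
    rw [Matrix.add_apply, Matrix.smul_apply, Matrix.single_apply, e0, e1, e2, e3, e4, e5,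
      smul_eq_mul]
    by_cases hp : p = j
    · by_cases hq : q = i
      · simp [hp, hq]
      · simp [hp, hq, Ne.symm hq]
    · simp [hp, Ne.symm hp]
  rw [h1]
  refine (Matrix.rank_mul_le_left P' Q').trans ((Matrix.rank_le_card_width P').trans ?_)
  simp

theorem pt_small_closed [IsAlgClosed K] (h : IsDM ψ) (hN : LenHom ψ N)
    (hm : ∀ u, co ψ u ≠ 0 → k ≤ u.count 0) (hk : 2 ≤ k)
    (a b : Matrix (Fin 2) (Fin 2) K) : pt k a b ψ = 0 := by
  refine pt_zero_of h hN hm hk a b fun i j r => ?_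
  obtain ⟨z, hz⟩ := singular (b + r • Matrix.single j i 1)
  exact trace_one h hN hm hk a _ z hz

theorem pt_three_closed [IsAlgClosed K] (h : IsDM ψ) (hN : LenHom ψ N)
    (hm : ∀ u, co ψ u ≠ 0 → k ≤ u.count 0) (hk : 2 ≤ k) (hodd : Odd (N + k))
    (a b : Matrix (Fin 3) (Fin 3) K) : pt k a b ψ = 0 := by
  refine pt_zero_of h hN hm hk a b fun i j r => ?_
  obtain ⟨z, hz⟩ := singular (b + r • Matrix.single j i 1)
  exact trace_two h hN hm hk hodd a _ z hz

theorem descend (hv : ∀ a b : Matrix (Fin n) (Fin n) (AlgebraicClosure K), pt k a b ψ = 0)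
    (a b : Matrix (Fin n) (Fin n) K) : pt k a b ψ = 0 := by
  have h1 := pt_map (algebraMap K (AlgebraicClosure K)).mapMatrix k a b ψ
  rw [hv] at h1
  refine Matrix.ext fun i j => ?_
  have h2 := congrFun (congrFun h1 i) j
  exact (algebraMap K (AlgebraicClosure K)).injective (h2.trans (map_zero _).symm)

end

end Pool.Agent.Zk87.MI
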