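import Pool.Agent.Zk87.MI.Two3
import Pool.Agent.Zk87.MI.Fin

/-!
# Quadratic equations with arbitrary central coefficients
-/

set_option autoImplicit false

namespace Pool.Agent.Zk87.MI

open Pool.Agent.H777R4.DM Pool.Agent.Y759.QS
open Pool.Agent.R241.DL (IN blk blk_rot blk_rev blk_one)
open Pool.Agent.Zk87.PL

section

variable {R : Type} [Ring R] [Algebra ℚ R] {ψ : A} {N k : ℕ}

/-- the case `a ^ 2 = t` with central `t` -/
theorem pt_sq (h : IsDM ψ) (hN : LenHom ψ N) (hm : ∀ u, co ψ u ≠ 0 → k ≤ u.count 0)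
    (hk : 2 ≤ k) (a b t : R) (ht : ∀ r : R, t * r = r * t) (hq : a * a = t) :
    pt k a b ψ = 0 := by
  let u : Matrix (Fin 2) (Fin 2) R := !![0, t; 1, 0]
  let Z : Subalgebra ℚ (Matrix (Fin 2) (Fin 2) R) := Subalgebra.centralizer ℚ {u}
  have hsc : ∀ r : R, Matrix.scalar (Fin 2) r ∈ Z := by
    intro r
    rw [Subalgebra.mem_centralizer_iff]
    intro g hg
    rw [Set.mem_singleton_iff] at hg
    subst hg
    refine Matrix.ext fun i j => ?_
    fin_cases i <;> fin_cases j <;>
      simp [u, Matrix.mul_apply, Fin.sum_univ_two, Matrix.diagonal_apply, ht]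
  have hu : u ∈ Z := by
    rw [Subalgebra.mem_centralizer_iff]
    intro g hg
    rw [Set.mem_singleton_iff] at hg
    subst hg
    rfl
  let a' : Z := ⟨Matrix.scalar (Fin 2) a, hsc a⟩
  let b' : Z := ⟨Matrix.scalar (Fin 2) b, hsc b⟩
  let u' : Z := ⟨u, hu⟩
  have hc : ∀ r : Z, u' * r = r * u' := by
    intro r
    have h1 := (Subalgebra.mem_centralizer_iff ℚ).1 r.2 u (Set.mem_singleton u)
    exact Subtype.ext h1
  have huu : u * u = Matrix.scalar (Fin 2) t := by
    refine Matrix.ext fun i j => ?_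
    fin_cases i <;> fin_cases j <;>
      simp [u, Matrix.mul_apply, Fin.sum_univ_two, Matrix.diagonal_apply]
  have h2 : (a' - u') * (a' - (-u')) = 0 := by
    have h3 : a' * a' = u' * u' := by
      apply Subtype.ext
      show Matrix.scalar (Fin 2) a * Matrix.scalar (Fin 2) a = u * u
      rw [← map_mul, hq, huu]
    rw [sub_neg_eq_add, sub_mul, mul_add, mul_add, h3, hc a']
    abel
  have hcn : ∀ r : Z, (-u') * r = r * (-u') := by
    intro r
    apply Subtype.ext
    show -u * r.1 = r.1 * -u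
    have h1 := (Subalgebra.mem_centralizer_iff ℚ).1 r.2 u (Set.mem_singleton u)
    rw [Matrix.neg_mul, Matrix.mul_neg, h1]
  have h4 := pt_quadratic h hN hm hk a' b' u' (-u') hc hcn h2
  have h5 := pt_map (Z.val : Z →+* Matrix (Fin 2) (Fin 2) R) k a' b' ψ
  rw [h4, map_zero] at h5
  have h6 := pt_map (Matrix.scalar (Fin 2) : R →+* Matrix (Fin 2) (Fin 2) R) k a b ψ
  have h7 : Matrix.scalar (Fin 2) (pt k a b ψ) = 0 := by
    rw [h6]
    exact h5.symm
  have h8 := congrFun (congrFun h7 0) 0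
  simpa using h8

/-- **The lowest layer vanishes if `x₁` satisfies a quadratic equation with central
coefficients.** -/
theorem pt_quad_all (h : IsDM ψ) (hN : LenHom ψ N) (hm : ∀ u, co ψ u ≠ 0 → k ≤ u.count 0)
    (hk : 2 ≤ k) (a b s t : R) (hs : ∀ r : R, s * r = r * s) (ht : ∀ r : R, t * r = r * t)
    (hq : a * a = s * a + t) : pt k a b ψ = 0 := by
  obtain ⟨z, hz0⟩ : ∃ z : R, z = (1 / 2 : ℚ) • s := ⟨_, rfl⟩
  have hz : ∀ r : R, z * r = r * z := by
    intro r
    rw [hz0, smul_mul_assoc, mul_smul_comm, hs]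
  have h1 := pt_shift' k hk (a - z) b z hz h.mem
  rw [sub_add_cancel] at h1
  rw [h1]
  have hzs : z + z = s := by
    rw [hz0, ← add_smul]
    norm_num
  refine pt_sq h hN hm hk (a - z) b (z * z + t) (fun r => ?_) ?_
  · rw [add_mul, mul_add, ht, mul_assoc, hz r, ← mul_assoc, hz r, mul_assoc]
  · have h3 : (a - z) * (a - z) = a * a - (z + z) * a + z * z := by
      rw [sub_mul, mul_sub, mul_sub, add_mul, hz a]
      abel
    rw [h3, hzs, hq]
    abel

end

/-- all 2 × 2 matrices over commutative rings -/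
theorem pt_two {R : Type} [CommRing R] [Algebra ℚ R] {ψ : A} {N k : ℕ} (h : IsDM ψ)
    (hN : LenHom ψ N) (hm : ∀ u, co ψ u ≠ 0 → k ≤ u.count 0) (hk : 2 ≤ k)
    (a b : Matrix (Fin 2) (Fin 2) R) : pt k a b ψ = 0 := by
  refine pt_quad_all h hN hm hk a b (a.trace • 1) (-(a.det • 1)) (fun r => by simp)
    (fun r => by simp) ?_
  refine Matrix.ext fun i j => ?_
  fin_cases i <;> fin_cases j <;>
    simp [Matrix.mul_apply, Fin.sum_univ_two, Matrix.trace, Matrix.det_fin_two] <;> ring

end Pool.Agent.Zk87.MI
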