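import Pool.Agent.Zk87.MI.E
import Pool.Agent.R241.DL7

/-!
# Lists with all but two entries equal
-/

set_option autoImplicit false

namespace Pool.Agent.Zk87.MI

open Pool.Agent.H777R4.DM
open Pool.Agent.R241.DL (IN blk blk_rot blk_rev blk_one blk_rev')

theorem IN_rep (c j : ℕ) : ∀ β : List ℕ → ℚ,
    IN c (List.replicate j c) β = (j + 1 : ℚ) * β (List.replicate (j + 1) c) := by
  induction j with
  | zero => intro β; simp [IN]
  | succ j ih =>
    intro β
    rw [List.replicate_succ, IN, ih]
    rw [← List.replicate_succ, ← List.replicate_succ]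
    push_cast
    ring

theorem IN_two (c b i j : ℕ) : ∀ β : List ℕ → ℚ,
    IN c (List.replicate i c ++ b :: List.replicate j c) β =
      (i + 1 : ℚ) * β (List.replicate (i + 1) c ++ b :: List.replicate j c) +
        (j + 1 : ℚ) * β (List.replicate i c ++ b :: List.replicate (j + 1) c) := by
  induction i with
  | zero =>
    intro β
    rw [List.replicate_zero, List.nil_append, IN, IN_rep]
    simp
  | succ i ih =>
    intro β
    rw [List.replicate_succ, List.cons_append, IN, ih]
    have e1 : List.replicate (i + 1 + 1) c ++ b :: List.replicate j c =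
        c :: c :: (List.replicate i c ++ b :: List.replicate j c) := by
      simp [List.replicate_succ]
    have e2 : c :: (List.replicate (i + 1) c ++ b :: List.replicate j c) =
        c :: c :: (List.replicate i c ++ b :: List.replicate j c) := by
      simp [List.replicate_succ]
    rw [e1, e2, List.cons_append]
    push_cast
    ring

variable {ψ : A} {N k : ℕ}

theorem two_step (h : IsDM ψ) (hN : LenHom ψ N) (hm : ∀ u, co ψ u ≠ 0 → k ≤ u.count 0)
    (hk : 2 ≤ k) (a b c i j : ℕ) (hij : i + j + 2 = k) :
    (i + 1 : ℚ) * co ψ (blk (a :: (List.replicate (i + 1) c ++ b :: List.replicate j c))) +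
      (j + 1 : ℚ) * co ψ (blk (a :: (List.replicate i c ++ b :: List.replicate (j + 1) c))) = 0 := by
  have h1 := blk_one h hN hm hk a c (List.replicate i c ++ b :: List.replicate j c)
    (by simp; omega)
  rw [IN_two] at h1
  exact h1

theorem two_all (h : IsDM ψ) (hN : LenHom ψ N) (hm : ∀ u, co ψ u ≠ 0 → k ≤ u.count 0)
    (hk : 2 ≤ k) (a b c : ℕ) : ∀ i j : ℕ, i + j + 1 = k →
    co ψ (blk (a :: (List.replicate i c ++ b :: List.replicate j c))) =
      (-1) ^ i * ((k - 1).choose i : ℚ) *
        co ψ (blk (a :: b :: List.replicate (k - 1) c)) := by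
  intro i
  induction i with
  | zero =>
    intro j hj
    have : j = k - 1 := by omega
    subst this
    simp
  | succ i ih =>
    intro j hj
    have h1 := two_step h hN hm hk a b c i j (by omega)
    rw [ih (j + 1) (by omega)] at h1
    have h2 : ((k - 1).choose (i + 1) : ℚ) * (i + 1) = (k - 1).choose i * (j + 1) := by
      have h3 := Nat.choose_succ_right_eq (k - 1) i
      have h4 : k - 1 - i = j + 1 := by omega
      rw [h4] at h3
      exact_mod_cast h3
    have h5 : (i + 1 : ℚ) ≠ 0 := by positivity
    apply mul_left_cancel₀ h5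
    rw [pow_succ]
    linear_combination h1 + (-1) ^ i * co ψ (blk (a :: b :: List.replicate (k - 1) c)) * h2

theorem two_wrong (h : IsDM ψ) (hN : LenHom ψ N) (hm : ∀ u, co ψ u ≠ 0 → k ≤ u.count 0)
    (hk : 2 ≤ k) (hodd : Odd (N + k)) (a b c i j : ℕ) (hij : i + j + 1 = k) :
    co ψ (blk (a :: (List.replicate i c ++ b :: List.replicate j c))) = 0 := by
  have h0 : co ψ (blk (a :: b :: List.replicate (k - 1) c)) = 0 := by
    have h1 := two_all h hN hm hk a b c (k - 1) 0 (by omega)
    have h2 := blk_rev' h hN hm hk a (b :: List.replicate (k - 1) c) (by simp; omega)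
    have h3 : (b :: List.replicate (k - 1) c).reverse = List.replicate (k - 1) c ++ [b] := by
      simp
    rw [h3] at h2
    rw [List.replicate_zero, h2, Nat.choose_self] at h1
    have h4 : (-1 : ℚ) ^ (N + 1) = - (-1) ^ (k - 1) := by
      obtain ⟨m, hm'⟩ : ∃ m, k = m + 1 := ⟨k - 1, by omega⟩
      subst hm'
      rw [Nat.add_sub_cancel]
      have h5 : Odd (N + 1 + m) := by
        have : N + 1 + m = N + (m + 1) := by omega
        rw [this]
        exact hodd
      rcases Nat.even_or_odd m with h' | h'
      · have h6 : Odd (N + 1) := by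
          rcases Nat.even_or_odd (N + 1) with h'' | h''
          · exact absurd (h''.add h') (Nat.not_even_iff_odd.2 h5)
          · exact h''
        rw [h'.neg_one_pow, h6.neg_one_pow]
      · have h6 : Even (N + 1) := by
          rcases Nat.even_or_odd (N + 1) with h'' | h''
          · exact h''
          · exact absurd (h''.add_odd h') (Nat.not_even_iff_odd.2 h5)
        rw [h'.neg_one_pow, h6.neg_one_pow]
        norm_num
    rw [h4] at h1
    have h7 : (-1 : ℚ) ^ (k - 1) ≠ 0 := pow_ne_zero _ (by norm_num)
    apply mul_left_cancel₀ h7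
    push_cast at h1
    linarith
  rw [two_all h hN hm hk a b c i j hij, h0, mul_zero]

end Pool.Agent.Zk87.MI
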