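import Pool.Agent.Zk87.PL.Gf

/-!
# Sums over lists and insertions of one letter
-/

set_option autoImplicit false

namespace Pool.Agent.Zk87.MI

open Pool.Agent.R241.DL (IN)

section

variable {V : Type} [AddCommGroup V]

/-- the sum over all lists of length `n` with entries in `s` -/
def E (s : Finset ℕ) : ℕ → (List ℕ → V) → V
  | 0, β => β []
  | n + 1, β => ∑ i ∈ s, E s n (fun L => β (i :: L))

variable (s : Finset ℕ)

theorem E_congr (n : ℕ) : ∀ β γ : List ℕ → V, (∀ L, L.length = n → β L = γ L) →
    E s n β = E s n γ := by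
  induction n with
  | zero => intro β γ h; exact h [] rfl
  | succ n ih =>
    intro β γ h
    rw [E, E]
    exact Finset.sum_congr rfl fun i _ => ih _ _ fun L hL => h (i :: L) (by simp [hL])

theorem E_add (n : ℕ) : ∀ β γ : List ℕ → V,
    E s n (fun L => β L + γ L) = E s n β + E s n γ := by
  induction n with
  | zero => intro β γ; rfl
  | succ n ih => intro β γ; simp only [E, ih, Finset.sum_add_distrib]

theorem E_zero (n : ℕ) : E s n (fun _ => (0 : V)) = 0 := by
  induction n with
  | zero => rfl
  | succ n ih => simp only [E, ih, Finset.sum_const_zero]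

theorem E_sum {ι : Type} (t : Finset ι) (n : ℕ) : ∀ β : ι → List ℕ → V,
    E s n (fun L => ∑ j ∈ t, β j L) = ∑ j ∈ t, E s n (β j) := by
  induction n with
  | zero => intro β; rfl
  | succ n ih =>
    intro β
    simp only [E, ih]
    rw [Finset.sum_comm]

theorem E_map {W : Type} [AddCommGroup W] (f : V →+ W) (n : ℕ) : ∀ β : List ℕ → V,
    f (E s n β) = E s n (fun L => f (β L)) := by
  induction n with
  | zero => intro β; rfl
  | succ n ih => intro β; simp only [E, map_sum, ih]

theorem E_snoc (n : ℕ) : ∀ β : List ℕ → V,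
    E s (n + 1) β = ∑ i ∈ s, E s n (fun L => β (L ++ [i])) := by
  induction n with
  | zero => intro β; rfl
  | succ n ih =>
    intro β
    have h1 : E s (n + 1 + 1) β = ∑ x ∈ s, E s (n + 1) (fun L => β (x :: L)) := rfl
    have h2 : ∀ x, E s (n + 1) (fun L => β (x :: L)) =
        ∑ y ∈ s, E s n (fun L => β (x :: (L ++ [y]))) := fun x => ih _
    rw [h1, Finset.sum_congr rfl (fun x _ => h2 x), Finset.sum_comm]
    rfl

theorem E_rot (n : ℕ) (β : List ℕ → V) : E s n (fun L => β (L.rotate 1)) = E s n β := by
  cases n with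
  | zero => rfl
  | succ n =>
    rw [E_snoc s n β, E]
    simp

theorem E_rotate (n j : ℕ) : ∀ (β : List ℕ → V), E s n (fun L => β (L.rotate j)) = E s n β := by
  induction j with
  | zero => intro β; simp
  | succ j ih =>
    intro β
    rw [← ih β, ← E_rot s n (fun L => β (L.rotate j))]
    simp only [List.rotate_rotate]
    congr 1
    funext L
    rw [Nat.add_comm]

theorem E_rev (n : ℕ) : ∀ β : List ℕ → V, E s n (fun L => β L.reverse) = E s n β := by
  induction n with
  | zero => intro β; rfl
  | succ n ih =>
    intro β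
    rw [E_snoc s n β, E]
    refine Finset.sum_congr rfl fun i _ => ?_
    rw [← ih]
    simp

/-- the sum over the ways to remove one entry -/
def Sp : List ℕ → (List ℕ → ℕ → List ℕ → V) → V
  | [], _ => 0
  | x :: L, φ => φ [] x L + Sp L (fun L1 y L2 => φ (x :: L1) y L2)

/-- the sum over the ways to insert one entry -/
def In (a : ℕ) : List ℕ → (List ℕ → V) → V
  | [], β => β [a]
  | b :: u, β => β (a :: b :: u) + In a u (fun t => β (b :: t))

theorem split_sum (n : ℕ) : ∀ Φ : List ℕ → ℕ → List ℕ → V,
    E s (n + 1) (fun W => Sp W (fun L1 x L2 => Φ (L1 ++ x :: L2) x (L1 ++ L2))) =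
      ∑ x ∈ s, E s n (fun L => In x L (fun W => Φ W x L)) := by
  induction n with
  | zero =>
    intro Φ
    simp [E, Sp, In]
  | succ n ih =>
    intro Φ
    have h1 : E s (n + 1 + 1) (fun W => Sp W (fun L1 x L2 => Φ (L1 ++ x :: L2) x (L1 ++ L2))) =
        ∑ i ∈ s, (E s (n + 1) (fun W => Φ (i :: W) i W) +
          ∑ x ∈ s, E s n (fun L => In x L (fun W => Φ (i :: W) x (i :: L)))) := by
      rw [E]
      refine Finset.sum_congr rfl fun i _ => ?_
      rw [← ih (fun W x L => Φ (i :: W) x (i :: L)), ← E_add]
      rfl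
    have h2 : ∀ x, E s (n + 1) (fun L => In x L (fun W => Φ W x L)) =
        E s (n + 1) (fun L => Φ (x :: L) x L) +
          ∑ i ∈ s, E s n (fun L => In x L (fun W => Φ (i :: W) x (i :: L))) := by
      intro x
      rw [E, E, ← Finset.sum_add_distrib]
      refine Finset.sum_congr rfl fun i _ => ?_
      rw [← E_add]
      rfl
    rw [h1]
    simp only [h2]
    rw [Finset.sum_add_distrib, Finset.sum_add_distrib]
    congr 1
    rw [Finset.sum_comm]

theorem IN_take (x : ℕ) (L : List ℕ) : ∀ C : List ℕ → ℚ,
    IN x L C = ∑ j ∈ Finset.range (L.length + 1), C (L.take j ++ x :: L.drop j) := by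
  induction L with
  | nil => intro C; simp [IN]
  | cons a L ih =>
    intro C
    rw [IN, ih, List.length_cons, Finset.sum_range_succ' _ (L.length + 1), add_comm]
    simp

end

section

variable {V : Type} [AddCommGroup V] [Module ℚ V]

theorem In_smul (x : ℕ) (v : V) (L : List ℕ) : ∀ C : List ℕ → ℚ,
    In x L (fun W => C W • v) = (IN x L C) • v := by
  induction L with
  | nil => intro C; rfl
  | cons a L ih => intro C; rw [In, IN, ih, add_smul]

theorem E_smul (s : Finset ℕ) (n : ℕ) (c : ℚ) : ∀ β : List ℕ → V,
    c • E s n β = E s n (fun L => c • β L) := by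
  induction n with
  | zero => intro β; rfl
  | succ n ih => intro β; simp only [E, Finset.smul_sum, ih]

variable {C : List ℕ → ℚ} {k : ℕ}

theorem rot_all (hc : ∀ L : List ℕ, L.length = k + 1 → C (L.rotate 1) = C L) (L : List ℕ)
    (hL : L.length = k + 1) (j : ℕ) : C (L.rotate j) = C L := by
  induction j with
  | zero => rw [List.rotate_zero]
  | succ j ih => rw [← List.rotate_rotate, hc _ (by simpa using hL), ih]

theorem sum_rot (hc : ∀ L : List ℕ, L.length = k + 1 → C (L.rotate 1) = C L)
    (hs : ∀ (a b : ℕ) (u : List ℕ), u.length + 1 = k → IN b u (fun w => C (a :: w)) = 0)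
    (x : ℕ) (L : List ℕ) (hL : L.length = k) :
    IN x L C = C (x :: L) ∧ (1 ≤ k → ∑ j ∈ Finset.range k, C (x :: L.rotate j) = 0) := by
  have h1 : IN x L C = C (x :: L) := by
    cases L with
    | nil => rfl
    | cons a v =>
      rw [IN, hs a x v (by simpa using hL), add_zero]
  refine ⟨h1, fun hk => ?_⟩
  rw [IN_take, hL] at h1
  have h2 : ∀ j ∈ Finset.range (k + 1), C (L.take j ++ x :: L.drop j) = C (x :: L.rotate j) := by
    intro j hj
    rw [Finset.mem_range] at hj
    rw [List.rotate_eq_drop_append_take (by omega)]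
    have h3 := rot_all hc (L.take j ++ x :: L.drop j) (by simp; omega) j
    rw [← h3]
    have h4 : ∀ A B : List ℕ, A.length = j → (A ++ B).rotate j = B ++ A := by
      rintro A B hA
      rw [← hA]
      exact List.rotate_append_length_eq A B
    rw [h4 _ _ (by simp; omega)]
    simp
  rw [Finset.sum_congr rfl h2, Finset.sum_range_succ] at h1
  have h5 : L.rotate k = L := by
    rw [← hL, List.rotate_length]
  rw [h5] at h1
  linarith

/-- cyclic functions are orthogonal to the insertions of one letter -/
theorem first_order (s : Finset ℕ) (hk : 1 ≤ k)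
    (hc : ∀ L : List ℕ, L.length = k + 1 → C (L.rotate 1) = C L)
    (hs : ∀ (a b : ℕ) (u : List ℕ), u.length + 1 = k → IN b u (fun w => C (a :: w)) = 0)
    (t : List ℕ → V) (ht : ∀ L : List ℕ, L.length = k → t (L.rotate 1) = t L) (x : ℕ) :
    E s k (fun L => IN x L C • t L) = 0 := by
  have ht' : ∀ (j : ℕ) (L : List ℕ), L.length = k → t (L.rotate j) = t L := by
    intro j
    induction j with
    | zero => intro L _; rw [List.rotate_zero]
    | succ j ih =>
      intro L hL
      rw [← List.rotate_rotate, ht _ (by simpa using hL), ih L hL]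
  have e1 : E s k (fun L => IN x L C • t L) = E s k (fun L => C (x :: L) • t L) :=
    E_congr s k _ _ fun L hL => by rw [(sum_rot hc hs x L hL).1]
  have e2 : ∀ j, E s k (fun L => C (x :: L.rotate j) • t L) = E s k (fun L => C (x :: L) • t L) := by
    intro j
    rw [← E_rotate s k j (fun L => C (x :: L) • t L)]
    exact E_congr s k _ _ fun L hL => by rw [ht' j L hL]
  have e3 : (k : ℚ) • E s k (fun L => C (x :: L) • t L) = 0 := by
    have : ∑ j ∈ Finset.range k, E s k (fun L => C (x :: L.rotate j) • t L) = 0 := by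
      rw [← E_sum]
      rw [← E_zero (V := V) s k]
      refine E_congr s k _ _ fun L hL => ?_
      rw [← Finset.sum_smul, (sum_rot hc hs x L hL).2 hk, zero_smul]
    rw [Finset.sum_congr rfl (fun j _ => e2 j), Finset.sum_const, Finset.card_range] at this
    rw [Nat.cast_smul_eq_nsmul]
    exact this
  rw [e1]
  rcases smul_eq_zero.1 e3 with h | h
  · exfalso
    have : (k : ℚ) ≠ 0 := by positivity
    exact this h
  · exact h

end

end Pool.Agent.Zk87.MI
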