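import Pool.Agent.Zk87.MI.E

/-!
# Values of the letter parts in an algebra
-/

set_option autoImplicit false

namespace Pool.Agent.Zk87.MI

open Pool.Agent.H777R4.DM
open Pool.Agent.R241.DL (blk)
open Pool.Agent.Zk87.PL
open Polynomial

attribute [local instance 100] LieRing.ofAssociativeRing

section

variable {R : Type} [Ring R] [Algebra ℚ R]

/-- the value of a word at `x₁ = a`, `x₀ = b` -/
def wv (a b : R) (u : List (Fin 2)) : R := (u.map fun i => if i = 1 then a else b).prod

/-- the part with `k` letters `x₀`, at `x₁ = a`, `x₀ = b` -/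
noncomputable def pt (k : ℕ) (a b : R) : A →ₗ[ℚ] R :=
  lext fun u => if u.count 0 = k then wv a b u else 0

/-- the evaluation at `x₁ = a`, `x₀ = b X` -/
noncomputable def Ev (a b : R) : A →ₐ[ℚ] R[X] :=
  MonoidAlgebra.lift ℚ R[X] (FreeMonoid (Fin 2))
    (FreeMonoid.lift fun i => if i = 1 then monomial 0 a else monomial 1 b)

theorem Ev_nil (a b : R) : Ev a b (wd []) = 1 := by
  unfold Ev wd
  rw [MonoidAlgebra.of_apply, MonoidAlgebra.lift_single, one_smul]
  exact map_one _

theorem Ev_cons (a b : R) (i : Fin 2) (u : List (Fin 2)) :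
    Ev a b (wd (i :: u)) = (if i = 1 then monomial 0 a else monomial 1 b) * Ev a b (wd u) := by
  unfold Ev wd
  rw [MonoidAlgebra.of_apply, MonoidAlgebra.of_apply, MonoidAlgebra.lift_single,
    MonoidAlgebra.lift_single, one_smul, one_smul, FreeMonoid.ofList_cons, map_mul,
    FreeMonoid.lift_eval_of]

theorem Ev_x (a b : R) (i : Fin 2) :
    Ev a b (x i) = if i = 1 then monomial 0 a else monomial 1 b := by
  have := Ev_cons a b i []
  rw [Ev_nil, mul_one] at this
  exact this

theorem Ev_wd (a b : R) (u : List (Fin 2)) :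
    Ev a b (wd u) = monomial (u.count 0) (wv a b u) := by
  induction u with
  | nil => rw [Ev_nil]; rfl
  | cons i u ih =>
    rw [Ev_cons, ih]
    by_cases h : i = 1
    · subst h
      rw [if_pos rfl, monomial_mul_monomial, List.count_cons_of_ne (by decide), zero_add]
      simp [wv]
    · have h0 : i = 0 := by omega
      subst h0
      rw [if_neg h, monomial_mul_monomial, List.count_cons_self, add_comm]
      simp [wv]

theorem Ev_coeff (k : ℕ) (a b : R) (ψ : A) : (Ev a b ψ).coeff k = pt k a b ψ := by
  let F : A →ₗ[ℚ] R :=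
    { toFun := fun φ => (Ev a b φ).coeff k
      map_add' := by intro p q; simp
      map_smul' := by intro p q; simp }
  have h : F = pt k a b := by
    refine lin_ext fun u => ?_
    unfold pt
    rw [lext_wd]
    show (Ev a b (wd u)).coeff k = _
    rw [Ev_wd, coeff_monomial]
  exact LinearMap.congr_fun h ψ

theorem Ev_shift (a b z : R) (hz : ∀ r : R, z * r = r * z) {ψ : A} (h : ψ ∈ LieX) :
    ∃ c : ℚ, Ev a (b + z) ψ = Ev a b ψ + c • monomial 1 z := by
  have hz' : ∀ p : R[X], monomial 1 z * p = p * monomial 1 z := by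
    intro p
    induction p using Polynomial.induction_on' with
    | add p q hp hq => rw [mul_add, add_mul, hp, hq]
    | monomial n r => rw [monomial_mul_monomial, monomial_mul_monomial, add_comm, hz]
  unfold LieX at h
  induction h using LieSubalgebra.lieSpan_induction with
  | mem y hy =>
    rcases hy with rfl | rfl
    · refine ⟨1, ?_⟩
      rw [Ev_x, Ev_x]
      simp
    · refine ⟨0, ?_⟩
      rw [Ev_x, Ev_x]
      simp
  | zero => exact ⟨0, by simp⟩
  | add y w _ _ hy hw =>
    obtain ⟨c, hc⟩ := hy
    obtain ⟨d, hd⟩ := hw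
    refine ⟨c + d, ?_⟩
    rw [map_add, map_add, hc, hd, add_smul]
    abel
  | smul r y _ hy =>
    obtain ⟨c, hc⟩ := hy
    refine ⟨r * c, ?_⟩
    rw [map_smul, map_smul, hc, smul_add, mul_smul]
  | lie y w _ _ hy hw =>
    obtain ⟨c, hc⟩ := hy
    obtain ⟨d, hd⟩ := hw
    refine ⟨0, ?_⟩
    rw [LieRing.of_associative_ring_bracket, map_sub, map_mul, map_mul, map_sub, map_mul, map_mul,
      hc, hd, zero_smul, add_zero]
    simp only [add_mul, mul_add, smul_mul_assoc, mul_smul_comm, smul_add, smul_smul,
      hz' (Ev a b y), hz' (Ev a b w), mul_comm d c]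
    abel

theorem pt_shift (k : ℕ) (hk : 2 ≤ k) (a b z : R) (hz : ∀ r : R, z * r = r * z) {ψ : A}
    (h : ψ ∈ LieX) : pt k a (b + z) ψ = pt k a b ψ := by
  obtain ⟨c, hc⟩ := Ev_shift a b z hz h
  have := congrArg (fun p => p.coeff k) hc
  simp only [coeff_add, coeff_smul, coeff_monomial] at this
  rw [Ev_coeff, Ev_coeff, if_neg (by omega), smul_zero, add_zero] at this
  exact this

end

section

variable {K : Type} [Field K] [CharZero K] {n : ℕ}

theorem pt_trace (k : ℕ) (hk : 2 ≤ k) (a b : Matrix (Fin n) (Fin n) K) {ψ : A}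
    (h : ψ ∈ LieX) : (pt k a b ψ).trace = 0 := by
  rw [← Ev_coeff]
  unfold LieX at h
  induction h using LieSubalgebra.lieSpan_induction generalizing k with
  | mem y hy =>
    rcases hy with rfl | rfl
    · rw [Ev_x, if_neg (by decide), coeff_monomial, if_neg (by omega), Matrix.trace_zero]
    · rw [Ev_x, if_pos rfl, coeff_monomial, if_neg (by omega), Matrix.trace_zero]
  | zero => simp
  | add y w _ _ hy hw => rw [map_add, coeff_add, Matrix.trace_add, hy k hk, hw k hk, add_zero]
  | smul r y _ hy => rw [map_smul, coeff_smul, Matrix.trace_smul, hy k hk, smul_zero]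
  | lie y w _ _ hy hw =>
    rw [LieRing.of_associative_ring_bracket, map_sub, map_mul, map_mul, coeff_sub, coeff_mul,
      coeff_mul, Matrix.trace_sub, Matrix.trace_sum, Matrix.trace_sum, sub_eq_zero,
      ← Finset.Nat.sum_antidiagonal_swap]
    refine Finset.sum_congr rfl fun p _ => ?_
    rw [Matrix.trace_mul_comm]
    rfl

end

/-! ### the sum over lists -/

theorem E_ind {V : Type} [AddCommGroup V] (s : Finset ℕ) (n : ℕ) :
    ∀ (L₀ : List ℕ) (v : List ℕ → V),
      E s n (fun L => if L₀ = L then v L else 0) =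
        if L₀.length = n ∧ ∀ y ∈ L₀, y ∈ s then v L₀ else 0 := by
  induction n with
  | zero =>
    intro L₀ v
    rw [E]
    cases L₀ with
    | nil => simp
    | cons a L₀ => simp
  | succ n ih =>
    intro L₀ v
    rw [E]
    cases L₀ with
    | nil => simp [E_zero]
    | cons a L₀ =>
      have h1 : ∀ i, E s n (fun L => if a :: L₀ = i :: L then v (i :: L) else 0) =
          if a = i then (if L₀.length = n ∧ ∀ y ∈ L₀, y ∈ s then v (a :: L₀) else 0) else 0 := by
        intro i
        by_cases h : a = i
        · subst h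
          rw [if_pos rfl, ← ih L₀ (fun L => v (a :: L))]
          refine E_congr s n _ _ fun L _ => ?_
          simp
        · rw [if_neg h]
          refine (E_congr s n _ (fun _ => 0) fun L _ => ?_).trans (E_zero s n)
          simp [h]
      simp only [h1]
      rw [Finset.sum_ite_eq]
      by_cases h : a ∈ s
      · simp [h]
      · simp [h]

section

variable {R : Type} [Ring R] [Algebra ℚ R]

theorem lext_congr' {V : Type} [AddCommGroup V] [Module ℚ V] {ψ : A} {F G : List (Fin 2) → V}
    (h : ∀ u, co ψ u ≠ 0 → F u = G u) : lext F ψ = lext G ψ := by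
  unfold lext
  simp only [LinearMap.comp_apply]
  rw [Finsupp.linearCombination_apply, Finsupp.linearCombination_apply]
  refine Finsupp.sum_congr fun m hm => ?_
  have : co ψ (FreeMonoid.toList m) ≠ 0 := by
    unfold co
    rw [Finsupp.mem_support_iff] at hm
    exact hm
  rw [h _ this]

theorem pt_eq_E {ψ : A} {N : ℕ} (hN : LenHom ψ N) (k : ℕ) (a b : R) :
    pt k a b ψ = E (Finset.range (N + 1)) (k + 1) (fun L => co ψ (blk L) • wv a b (blk L)) := by
  let F : A →ₗ[ℚ] R :=
    { toFun := fun φ => E (Finset.range (N + 1)) (k + 1) (fun L => co φ (blk L) • wv a b (blk L))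
      map_add' := by intro p q; simp only [co_add, add_smul, E_add]
      map_smul' := by
        intro p q
        simp only [co_smul, mul_smul, RingHom.id_apply]
        rw [E_smul] }
  have h : F = lext fun u => if (bl u).length = k + 1 ∧ ∀ y ∈ bl u, y ∈ Finset.range (N + 1)
      then wv a b (blk (bl u)) else 0 := by
    refine lin_ext fun u => ?_
    rw [lext_wd, ← E_ind (Finset.range (N + 1)) (k + 1) (bl u) (fun L => wv a b (blk L))]
    refine E_congr _ _ _ _ fun L hL => ?_
    rw [co_wd]
    by_cases h : bl u = L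
    · rw [if_pos h, if_pos (by rw [← h, blk_bl]), one_smul]
    · rw [if_neg h, if_neg, zero_smul]
      rintro rfl
      apply h
      rw [bl_blk]
      rintro rfl
      simp at hL
  have h2 : F ψ = pt k a b ψ := by
    rw [h]
    unfold pt
    refine lext_congr' fun u hu => ?_
    rw [blk_bl, bl_length]
    by_cases hc : u.count 0 = k
    · rw [if_pos hc, if_pos]
      refine ⟨by rw [hc], fun y hy => ?_⟩
      rw [Finset.mem_range]
      have h3 := bl_sum u
      have h4 := List.single_le_sum (l := bl u) (by simp) y hy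
      have h5 := hN u hu
      have h6 : u.count 1 ≤ u.length := List.count_le_length
      omega
    · rw [if_neg hc, if_neg]
      rintro ⟨h3, -⟩
      omega
  exact h2.symm

end

end Pool.Agent.Zk87.MI
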