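import Pool.Agent.Zk87.MI.Tr

/-!
# Vanishing on small matrices
-/

set_option autoImplicit false
set_option linter.unusedSectionVars false

namespace Pool.Agent.Zk87.MI

open Pool.Agent.H777R4.DM
open Pool.Agent.R241.DL (IN blk blk_rot blk_rev blk_one)
open Pool.Agent.Zk87.PL
open Polynomial

section

variable {R : Type} [Ring R] [Algebra ℚ R]

theorem wv_append (a b : R) (u v : List (Fin 2)) : wv a b (u ++ v) = wv a b u * wv a b v := by
  simp [wv]

theorem wv_rep (a b : R) (i : ℕ) : wv a b (List.replicate i 1) = a ^ i := by
  simp [wv]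

theorem wv_blk (a b : R) (x : ℕ) (L : List ℕ) :
    wv a b (blk (x :: L)) = a ^ x * (L.map fun i => b * a ^ i).prod := by
  induction L generalizing x with
  | nil => rw [blk, wv_rep]; simp
  | cons y L ih =>
    rw [blk, wv_append, wv_rep]
    have : wv a b (0 :: blk (y :: L)) = b * wv a b (blk (y :: L)) := by simp [wv]
    rw [this, ih]
    simp [mul_assoc]

theorem mul_wv_blk (a b : R) (L : List ℕ) (hL : L ≠ []) :
    b * wv a b (blk L) = (L.map fun i => b * a ^ i).prod := by
  cases L with
  | nil => exact absurd rfl hL
  | cons x L => rw [wv_blk]; simp [mul_assoc]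

end

section

variable {K : Type} [Field K] [CharZero K] {n : Type} [Fintype n] [DecidableEq n]

theorem trace_pt {ψ : A} {N : ℕ} (hN : LenHom ψ N) (k : ℕ) (a b : Matrix n n K) :
    (b * pt k a b ψ).trace =
      TT (fun L => co ψ (blk L)) (Finset.range (N + 1)) (k + 1) (fun i => b * a ^ i) := by
  rw [pt_eq_E hN]
  have h := E_map (Finset.range (N + 1))
    ((Matrix.traceAddMonoidHom n K).comp (AddMonoidHom.mulLeft b)) (k + 1)
    (fun L => co ψ (blk L) • wv a b (blk L))
  refine h.trans (E_congr _ _ _ _ fun L hL => ?_)
  have h1 : L ≠ [] := by rintro rfl; simp at hL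
  simp only [AddMonoidHom.comp_apply, AddMonoidHom.coe_mulLeft, mul_smul_comm]
  rw [mul_wv_blk a b L h1]
  exact Matrix.trace_smul _ _

/-- the fields of a product of two rectangular matrices -/
theorem trace_PQ {d : Type} [Fintype d] [DecidableEq d] (P : Matrix n d K) (Q : Matrix d n K)
    (a : Matrix n n K) (L : List ℕ) (hL : L ≠ []) :
    ((L.map fun i => P * Q * a ^ i).prod).trace = ((L.map fun i => Q * a ^ i * P).prod).trace := by
  have key : ∀ L : List ℕ, (L.map fun i => P * Q * a ^ i).prod * P =
      P * (L.map fun i => Q * a ^ i * P).prod := by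
    intro L
    induction L with
    | nil => simp
    | cons x L ih =>
      rw [List.map_cons, List.prod_cons, List.map_cons, List.prod_cons, Matrix.mul_assoc, ih]
      simp only [Matrix.mul_assoc]
  cases L with
  | nil => exact absurd rfl hL
  | cons x L =>
    rw [List.map_cons, List.prod_cons, List.map_cons, List.prod_cons]
    have h1 : P * Q * a ^ x * (L.map fun i => P * Q * a ^ i).prod =
        P * (Q * a ^ x * (L.map fun i => P * Q * a ^ i).prod) := by
      simp only [Matrix.mul_assoc]
    rw [h1, Matrix.trace_mul_comm, Matrix.mul_assoc, key]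
    simp only [Matrix.mul_assoc]

theorem TT_PQ {d : Type} [Fintype d] [DecidableEq d] (C : List ℕ → ℚ) (s : Finset ℕ) (k : ℕ)
    (P : Matrix n d K) (Q : Matrix d n K) (a : Matrix n n K) :
    TT C s (k + 1) (fun i => P * Q * a ^ i) = TT C s (k + 1) (fun i => Q * a ^ i * P) := by
  refine E_congr _ _ _ _ fun L hL => ?_
  rw [trace_PQ]
  rintro rfl
  simp at hL

/-- a cyclic identity in all directions gives the vanishing of the gradient -/
theorem grad {ψ : A} {N k : ℕ} (hN : LenHom ψ N)
    (hc : ∀ (t : ℕ) (L : List ℕ), L.length = k + 1 → co ψ (blk (L.rotate t)) = co ψ (blk L))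
    (a b e : Matrix n n K)
    (h : ∀ r : K, TT (fun L => co ψ (blk L)) (Finset.range (N + 1)) (k + 1)
      (fun i => (b + r • e) * a ^ i) = 0) : (e * pt k a b ψ).trace = 0 := by
  set s := Finset.range (N + 1) with hsdef
  let C : List ℕ → ℚ := fun L => co ψ (blk L)
  let B : ℕ → Matrix n n K[X] := fun i =>
    (b.map Polynomial.C + (X : K[X]) • e.map Polynomial.C) * (a ^ i).map Polynomial.C
  have hev : ∀ r : K, (TT C s (k + 1) B).eval r = 0 := by
    intro r
    have h1 := TT_map C s (k + 1) (evalRingHom r) B
    refine h1.trans (Eq.trans ?_ (h r))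
    congr 1
    funext i
    have h2 : (B i).map (evalRingHom r) = (evalRingHom r).mapMatrix (B i) := rfl
    rw [h2]
    simp only [B]
    rw [map_mul]
    congr 1
    · refine Matrix.ext fun p q => ?_
      simp [mul_comm r]
    · refine Matrix.ext fun p q => ?_
      simp
  have h0 : TT C s (k + 1) B = 0 := Polynomial.funext fun r => by rw [hev r, eval_zero]
  have hB : ∀ i, (B i).map derivative = (e * a ^ i).map Polynomial.C := by
    intro i
    have h3 : ((a ^ i).map Polynomial.C).map derivative = 0 := by
      refine Matrix.ext fun p q => ?_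
      simp
    have h4 : (b.map Polynomial.C + (X : K[X]) • e.map Polynomial.C).map derivative =
        e.map Polynomial.C := by
      refine Matrix.ext fun p q => ?_
      simp
    simp only [B]
    rw [map_der_mul, h3, h4, mul_zero, add_zero]
    exact (map_mul (Polynomial.C (R := K)).mapMatrix e (a ^ i)).symm
  have hd := der_TT C s (k + 1) B
  rw [h0, derivative_zero] at hd
  have he := congrArg (fun p => (evalRingHom (0 : K)) p) hd
  simp only [map_zero] at he
  have h5 := E_map s ((evalRingHom (0 : K) : K[X] →+* K) : K[X] →+ K) (k + 1)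
    (fun L => C L • Sp L (fun L1 x L2 =>
      ((L1.map B).prod * (B x).map derivative * (L2.map B).prod).trace))
  have he' := he.trans h5
  have h6 : ∀ L : List ℕ, L.length = k + 1 →
      ((evalRingHom (0 : K) : K[X] →+* K) : K[X] →+ K) (C L • Sp L (fun L1 x L2 =>
        ((L1.map B).prod * (B x).map derivative * (L2.map B).prod).trace)) =
      ∑ j ∈ Finset.range (k + 1), C (L.rotate j) • (e * wv a b (blk (L.rotate j))).trace := by
    intro L hL
    rw [map_rat_smul]
    have h7 := Sp_map ((evalRingHom (0 : K) : K[X] →+* K) : K[X] →+ K) L (fun L1 x L2 =>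
        ((L1.map B).prod * (B x).map derivative * (L2.map B).prod).trace)
    rw [h7]
    have h8 : Sp L (fun L1 x L2 => ((evalRingHom (0 : K) : K[X] →+* K) : K[X] →+ K)
        ((L1.map B).prod * (B x).map derivative * (L2.map B).prod).trace) =
        Sp L (fun L1 x L2 => (e * wv a b (blk (x :: (L2 ++ ([] ++ L1))))).trace) := by
      refine Sp_congr _ _ _ fun L1 x L2 _ => ?_
      have h9 : ∀ M : Matrix n n K[X], ((evalRingHom (0 : K) : K[X] →+* K) : K[X] →+ K) M.trace =
          (M.map (evalRingHom (0 : K))).trace := fun M => AddMonoidHom.map_trace _ _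
      have h10 : ∀ L' : List ℕ, ((L'.map B).prod).map (evalRingHom (0 : K)) =
          (L'.map fun i => b * a ^ i).prod := by
        intro L'
        rw [prod_map_map]
        congr 2
        funext i
        have h2 : (B i).map (evalRingHom (0 : K)) = (evalRingHom (0 : K)).mapMatrix (B i) := rfl
        rw [h2]
        simp only [B]
        rw [map_mul]
        congr 1
        · refine Matrix.ext fun p q => ?_
          simp
        · refine Matrix.ext fun p q => ?_
          simp
      rw [h9, hB]
      have h11 : ((L1.map B).prod * (e * a ^ x).map Polynomial.C * (L2.map B).prod).map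
          (evalRingHom (0 : K)) = ((L1.map B).prod).map (evalRingHom (0 : K)) * (e * a ^ x) *
            ((L2.map B).prod).map (evalRingHom (0 : K)) := by
        have h12 := map_mul (evalRingHom (0 : K)).mapMatrix
          ((L1.map B).prod * (e * a ^ x).map Polynomial.C) ((L2.map B).prod)
        have h12' := map_mul (evalRingHom (0 : K)).mapMatrix
          ((L1.map B).prod) ((e * a ^ x).map Polynomial.C)
        have h13 : (evalRingHom (0 : K)).mapMatrix ((e * a ^ x).map Polynomial.C) = e * a ^ x := by
          refine Matrix.ext fun p q => ?_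
          show (evalRingHom (0 : K)) (Polynomial.C ((e * a ^ x) p q)) = _
          rw [coe_evalRingHom, eval_C]
        rw [h12', h13] at h12
        exact h12
      rw [h11, h10, h10, wv_blk, List.nil_append, List.map_append, List.prod_append,
        Matrix.trace_mul_comm, ← Matrix.mul_assoc, Matrix.trace_mul_comm]
      simp only [Matrix.mul_assoc]
    rw [h8, Sp_rot (fun L' => (e * wv a b (blk L')).trace) L [], hL, Finset.smul_sum]
    refine Finset.sum_congr rfl fun j hj => ?_
    rw [Finset.mem_range] at hj
    rw [List.rotate_eq_drop_append_take (by omega), List.nil_append,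
      ← List.rotate_eq_drop_append_take (by omega)]
    congr 1
    exact (hc j L hL).symm
  rw [E_congr s (k + 1) _ _ h6, E_sum] at he'
  have h14 : ∀ j ∈ Finset.range (k + 1), E s (k + 1) (fun L => C (L.rotate j) •
      (e * wv a b (blk (L.rotate j))).trace) = (e * pt k a b ψ).trace := by
    intro j _
    rw [E_rotate s (k + 1) j (fun L => C L • (e * wv a b (blk L)).trace), pt_eq_E hN]
    have h := E_map s
      ((Matrix.traceAddMonoidHom n K).comp (AddMonoidHom.mulLeft e)) (k + 1)
      (fun L => co ψ (blk L) • wv a b (blk L))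
    refine (h.trans (E_congr _ _ _ _ fun L hL => ?_)).symm
    simp only [AddMonoidHom.comp_apply, AddMonoidHom.coe_mulLeft, mul_smul_comm]
    exact Matrix.trace_smul _ _
  rw [Finset.sum_congr rfl h14, Finset.sum_const, Finset.card_range, nsmul_eq_mul] at he'
  rcases mul_eq_zero.1 he'.symm with h15 | h15
  · exfalso
    have : ((k + 1 : ℕ) : K) ≠ 0 := Nat.cast_ne_zero.2 (by omega)
    exact this h15
  · exact h15

end

end Pool.Agent.Zk87.MI
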