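import Pool.Agent.Zk87.MI.Ev

/-!
# Sums of traces of products, and derivatives
-/

set_option autoImplicit false
set_option linter.unusedSectionVars false

namespace Pool.Agent.Zk87.MI

open Pool.Agent.R241.DL (IN)
open Polynomial

section

variable {V W : Type} [AddCommGroup V] [AddCommGroup W]

theorem Sp_congr : ∀ (U : List ℕ) (φ φ' : List ℕ → ℕ → List ℕ → V),
    (∀ L1 x L2, U = L1 ++ x :: L2 → φ L1 x L2 = φ' L1 x L2) → Sp U φ = Sp U φ'
  | [], _, _, _ => rfl
  | x :: U, φ, φ', h => by
    rw [Sp, Sp, h [] x U rfl, Sp_congr U _ _ fun L1 y L2 e => h (x :: L1) y L2 (by rw [e]; rfl)]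

theorem Sp_map (f : V →+ W) : ∀ (U : List ℕ) (φ : List ℕ → ℕ → List ℕ → V),
    f (Sp U φ) = Sp U (fun L1 x L2 => f (φ L1 x L2))
  | [], φ => map_zero f
  | x :: U, φ => by rw [Sp, Sp, map_add, Sp_map f U]

theorem Sp_rot (g : List ℕ → V) : ∀ (U M : List ℕ),
    Sp U (fun L1 x L2 => g (x :: (L2 ++ (M ++ L1)))) =
      ∑ j ∈ Finset.range U.length, g (U.drop j ++ (M ++ U.take j))
  | [], M => rfl
  | y :: U, M => by
    rw [Sp, List.length_cons, Finset.sum_range_succ']
    have h1 : Sp U (fun L1 x L2 => g (x :: (L2 ++ (M ++ y :: L1)))) =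
        Sp U (fun L1 x L2 => g (x :: (L2 ++ (M ++ [y] ++ L1)))) :=
      Sp_congr _ _ _ (by intros; simp)
    rw [h1, Sp_rot g U (M ++ [y]), add_comm]
    simp

end

section

variable {S S' : Type} [CommRing S] [Algebra ℚ S] [CommRing S'] [Algebra ℚ S']
  {n : Type} [Fintype n] [DecidableEq n]

/-- the sum of the traces of the products -/
noncomputable def TT (C : List ℕ → ℚ) (s : Finset ℕ) (m : ℕ) (B : ℕ → Matrix n n S) : S :=
  E s m (fun L => C L • ((L.map B).prod).trace)

theorem prod_map_map (f : S →+* S') (B : ℕ → Matrix n n S) (L : List ℕ) :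
    ((L.map B).prod).map f = (L.map fun b => (B b).map f).prod := by
  have h := map_list_prod (f.mapMatrix (m := n)) (L.map B)
  rw [List.map_map] at h
  exact h

theorem TT_map (C : List ℕ → ℚ) (s : Finset ℕ) (m : ℕ) (f : S →+* S') (B : ℕ → Matrix n n S) :
    f (TT C s m B) = TT C s m (fun b => (B b).map f) := by
  have h := E_map s (f : S →+ S') m (fun L => C L • ((L.map B).prod).trace)
  refine h.trans (E_congr s m _ _ fun L _ => ?_)
  rw [map_rat_smul, ← prod_map_map]
  congr 1
  exact AddMonoidHom.map_trace (f : S →+ S') _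

theorem trace_rot (B : ℕ → Matrix n n S) (L : List ℕ) :
    (((L.rotate 1).map B).prod).trace = ((L.map B).prod).trace := by
  cases L with
  | nil => rfl
  | cons a L =>
    rw [List.rotate_cons_succ, List.rotate_zero, List.map_append, List.prod_append, List.map_cons,
      List.prod_cons, Matrix.trace_mul_comm]
    simp

end

section

variable {K : Type} [Field K] [CharZero K] {n : Type} [Fintype n] [DecidableEq n]

theorem map_der_mul (M N : Matrix n n K[X]) :
    (M * N).map derivative = M.map derivative * N + M * N.map derivative := by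
  refine Matrix.ext fun i j => ?_
  simp only [Matrix.map_apply, Matrix.mul_apply, Matrix.add_apply, derivative_sum, derivative_mul,
    Finset.sum_add_distrib]

theorem map_der_one : (1 : Matrix n n K[X]).map derivative = 0 := by
  refine Matrix.ext fun i j => ?_
  rw [Matrix.map_apply, Matrix.one_apply]
  split_ifs <;> simp

theorem der_prod (B : ℕ → Matrix n n K[X]) : ∀ L : List ℕ, ((L.map B).prod).map derivative =
    Sp L (fun L1 x L2 => (L1.map B).prod * (B x).map derivative * (L2.map B).prod)
  | [] => map_der_one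
  | x :: L => by
    rw [List.map_cons, List.prod_cons, map_der_mul, der_prod B L, Sp]
    congr 1
    · simp
    · have h := Sp_map (AddMonoidHom.mulLeft (B x)) L
        (fun L1 x L2 => (L1.map B).prod * (B x).map derivative * (L2.map B).prod)
      refine h.trans (Sp_congr _ _ _ fun L1 y L2 _ => ?_)
      simp [mul_assoc]

theorem der_trace (M : Matrix n n K[X]) : derivative M.trace = (M.map derivative).trace := by
  simp [Matrix.trace]

theorem der_TT (C : List ℕ → ℚ) (s : Finset ℕ) (m : ℕ) (B : ℕ → Matrix n n K[X]) :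
    derivative (TT C s m B) = E s m (fun L => C L • Sp L (fun L1 x L2 =>
      ((L1.map B).prod * (B x).map derivative * (L2.map B).prod).trace)) := by
  have h := E_map s (derivative (R := K)).toAddMonoidHom m (fun L => C L • ((L.map B).prod).trace)
  refine h.trans (E_congr s m _ _ fun L _ => ?_)
  rw [map_rat_smul]
  congr 1
  have h2 := Sp_map (Matrix.traceAddMonoidHom n K[X]) L
    (fun L1 x L2 => (L1.map B).prod * (B x).map derivative * (L2.map B).prod)
  rw [← der_prod] at h2
  refine Eq.trans ?_ h2
  exact der_trace _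

variable {C : List ℕ → ℚ} {k : ℕ}

/-- translations of the fields by scalars -/
theorem TT_shift (s : Finset ℕ) (hk : 1 ≤ k)
    (hc : ∀ L : List ℕ, L.length = k + 1 → C (L.rotate 1) = C L)
    (hs : ∀ (a b : ℕ) (u : List ℕ), u.length + 1 = k → IN b u (fun w => C (a :: w)) = 0)
    (H : ℕ → Matrix n n K) (τ : ℕ → K) :
    TT C s (k + 1) (fun b => H b + τ b • 1) = TT C s (k + 1) H := by
  let B : ℕ → Matrix n n K[X] := fun b => (H b).map Polynomial.C + (X * Polynomial.C (τ b)) • 1
  have hB : ∀ b, (B b).map derivative = (Polynomial.C (τ b)) • (1 : Matrix n n K[X]) := by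
    intro b
    refine Matrix.ext fun i j => ?_
    simp only [B, Matrix.map_apply, Matrix.add_apply, Matrix.smul_apply, Matrix.one_apply,
      smul_eq_mul]
    split_ifs <;> simp
  have hev : ∀ r : K, (TT C s (k + 1) B).eval r = TT C s (k + 1) (fun b => H b + (r * τ b) • 1) := by
    intro r
    have h := TT_map C s (k + 1) (evalRingHom r) B
    refine h.trans ?_
    congr 1
    funext b
    refine Matrix.ext fun i j => ?_
    simp only [B, Matrix.map_apply, Matrix.add_apply, Matrix.smul_apply, Matrix.one_apply,
      smul_eq_mul]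
    split_ifs
    · simp [mul_comm r]
    · simp
  have hd : derivative (TT C s (k + 1) B) = 0 := by
    rw [der_TT]
    have h1 : ∀ W : List ℕ, C W • Sp W (fun L1 x L2 =>
        ((L1.map B).prod * (B x).map derivative * (L2.map B).prod).trace) =
        Sp W (fun L1 x L2 => C (L1 ++ x :: L2) •
          (Polynomial.C (τ x) * (((L1 ++ L2).map B).prod).trace)) := by
      intro W
      have h2 := Sp_map (DistribSMul.toAddMonoidHom K[X] (C W)) W (fun L1 x L2 =>
        ((L1.map B).prod * (B x).map derivative * (L2.map B).prod).trace)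
      refine h2.trans (Sp_congr _ _ _ fun L1 x L2 hW => ?_)
      rw [DistribSMul.toAddMonoidHom_apply, hW, hB]
      congr 1
      simp
    simp only [h1]
    have h3 := split_sum s k (fun W x L =>
      C W • (Polynomial.C (τ x) * ((L.map B).prod).trace))
    rw [h3]
    refine Finset.sum_eq_zero fun x _ => ?_
    simp only [In_smul]
    refine first_order s hk hc hs (fun L => Polynomial.C (τ x) * ((L.map B).prod).trace) ?_ x
    intro L _
    rw [trace_rot]
  have h0 := derivative_eq_zero.1 hd
  have h1 := eq_C_of_natDegree_eq_zero h0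
  have e0 := hev 0
  have e1 := hev 1
  rw [h1, eval_C] at e0 e1
  rw [e0] at e1
  simpa using e1.symm

theorem TT_zero (s : Finset ℕ) : TT C s (k + 1) (fun _ => (0 : Matrix n n K)) = 0 := by
  unfold TT
  refine (E_congr s (k + 1) _ (fun _ => 0) fun L hL => ?_).trans (E_zero s (k + 1))
  cases L with
  | nil => simp at hL
  | cons a L => simp

theorem TT_one (s : Finset ℕ) (hk : 1 ≤ k)
    (hc : ∀ L : List ℕ, L.length = k + 1 → C (L.rotate 1) = C L)
    (hs : ∀ (a b : ℕ) (u : List ℕ), u.length + 1 = k → IN b u (fun w => C (a :: w)) = 0)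
    (H : ℕ → Matrix (Fin 1) (Fin 1) K) : TT C s (k + 1) H = 0 := by
  have h1 : H = fun b => (0 : Matrix (Fin 1) (Fin 1) K) + H b 0 0 • 1 := by
    funext b
    refine Matrix.ext fun i j => ?_
    rw [Subsingleton.elim i 0, Subsingleton.elim j 0]
    simp
  rw [h1, TT_shift s hk hc hs, TT_zero]

theorem prod_adj (H : ℕ → Matrix (Fin 2) (Fin 2) K) (L : List ℕ) :
    (L.map fun b => H b - (H b).trace • 1).prod =
      (-1 : K) ^ L.length • ((L.reverse.map H).prod).adjugate := by
  induction L with
  | nil => simp
  | cons a L ih =>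
    have h1 : H a - (H a).trace • 1 = -(H a).adjugate := by
      rw [Matrix.adjugate_fin_two]
      refine Matrix.ext fun i j => ?_
      fin_cases i <;> fin_cases j <;> simp [Matrix.trace, Fin.sum_univ_two]
    rw [List.map_cons, List.prod_cons, ih, h1, List.reverse_cons, List.map_append,
      List.prod_append, Matrix.adjugate_mul_distrib, List.length_cons, pow_succ]
    simp

theorem trace_adj (M : Matrix (Fin 2) (Fin 2) K) : M.adjugate.trace = M.trace := by
  rw [Matrix.adjugate_fin_two]
  simp [Matrix.trace, Fin.sum_univ_two, add_comm]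

theorem TT_two (s : Finset ℕ) (hk : 1 ≤ k)
    (hc : ∀ L : List ℕ, L.length = k + 1 → C (L.rotate 1) = C L)
    (hs : ∀ (a b : ℕ) (u : List ℕ), u.length + 1 = k → IN b u (fun w => C (a :: w)) = 0)
    (hr : ∀ L : List ℕ, C L.reverse = (-1) ^ k * C L)
    (H : ℕ → Matrix (Fin 2) (Fin 2) K) : TT C s (k + 1) H = 0 := by
  have h1 := TT_shift s hk hc hs H (fun b => - (H b).trace)
  have h2 : TT C s (k + 1) (fun b => H b + (- (H b).trace) • 1) = - TT C s (k + 1) H := by
    have h3 : ∀ L : List ℕ, L.length = k + 1 →
        C L • ((L.map fun b => H b + (- (H b).trace) • (1 : Matrix (Fin 2) (Fin 2) K)).prod).trace =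
        (-1 : ℚ) • (C L.reverse • ((L.reverse.map H).prod).trace) := by
      intro L hL
      have h4 : (L.map fun b => H b + (- (H b).trace) • (1 : Matrix (Fin 2) (Fin 2) K)).prod =
          (-1 : K) ^ L.length • ((L.reverse.map H).prod).adjugate := by
        rw [← prod_adj]
        congr 2
        funext b
        rw [neg_smul, sub_eq_add_neg]
      rw [h4, Matrix.trace_smul, trace_adj, hL, hr, smul_smul]
      rcases Nat.even_or_odd k with h | h
      · rw [h.neg_one_pow, h.add_one.neg_one_pow]
        simp
      · rw [h.neg_one_pow, h.add_one.neg_one_pow]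
        simp
    unfold TT
    rw [E_congr s (k + 1) _ _ h3, ← E_smul, E_rev s (k + 1) (fun L => C L • ((L.map H).prod).trace)]
    simp
  rw [h2] at h1
  have h5 : (2 : K) * TT C s (k + 1) H = 0 := by linear_combination -h1
  rcases mul_eq_zero.1 h5 with h | h
  · exact absurd h two_ne_zero
  · exact h

end

end Pool.Agent.Zk87.MI
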