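import Pool.Agent.Zk87.MI.Co
import Pool.Agent.Zk87.MI.Ev
import Pool.Agent.Y759.DS.Filt2

/-!
# The sums of the coefficients with given nonempty blocks
-/

set_option autoImplicit false

namespace Pool.Agent.Zk87.MI

open Pool.Agent.H777R4.DM Pool.Agent.Y759.QS
open Pool.Agent.R241.DL (IN blk blk_rot blk_rev blk_one)
open Pool.Agent.Zk87.PL

/-- nonzero -/
def nz (a : ℕ) : Bool := decide (a ≠ 0)

/-- the pattern of the nonempty blocks of a word -/
def pat (u : List (Fin 2)) : List Bool := (bl u).map nz

theorem pat_nil : pat [] = [false] := rfl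

theorem pat_ne (u : List (Fin 2)) : pat u ≠ [] := by
  unfold pat
  simp [bl_ne]

theorem pat_one (u : List (Fin 2)) : pat (1 :: u) = true :: (pat u).tail := by
  unfold pat
  rw [bl_one]
  cases hb : bl u with
  | nil => exact absurd hb (bl_ne u)
  | cons b v => simp [nz]

theorem pat_zero (u : List (Fin 2)) : pat (0 :: u) = false :: pat u := by
  unfold pat
  rw [bl_zero]
  simp [nz]

/-- the sum over all words of length `n` -/
def WS : ℕ → (List (Fin 2) → ℚ) → ℚ
  | 0, F => F []
  | n + 1, F => WS n (fun u => F (0 :: u)) + WS n (fun u => F (1 :: u))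

theorem WS_congr (n : ℕ) : ∀ F G : List (Fin 2) → ℚ, (∀ u, u.length = n → F u = G u) →
    WS n F = WS n G := by
  induction n with
  | zero => intro F G h; exact h [] rfl
  | succ n ih =>
    intro F G h
    rw [WS, WS, ih _ _ fun u hu => h (0 :: u) (by simp [hu]),
      ih _ _ fun u hu => h (1 :: u) (by simp [hu])]

theorem WS_zero (n : ℕ) : WS n (fun _ => 0) = 0 := by
  induction n with
  | zero => rfl
  | succ n ih => rw [WS, ih, add_zero]

theorem WS_add (n : ℕ) : ∀ F G : List (Fin 2) → ℚ,
    WS n (fun u => F u + G u) = WS n F + WS n G := by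
  induction n with
  | zero => intro F G; rfl
  | succ n ih => intro F G; rw [WS, WS, WS, ih, ih]; ring

theorem WS_smul (n : ℕ) (c : ℚ) : ∀ F : List (Fin 2) → ℚ,
    WS n (fun u => c * F u) = c * WS n F := by
  induction n with
  | zero => intro F; rfl
  | succ n ih => intro F; rw [WS, WS, ih, ih]; ring

theorem WS_ind (n : ℕ) : ∀ (u₀ : List (Fin 2)) (F : List (Fin 2) → ℚ),
    WS n (fun u => (if u₀ = u then 1 else 0) * F u) = if u₀.length = n then F u₀ else 0 := by
  induction n with
  | zero =>
    intro u₀ F
    cases u₀ with
    | nil => simp [WS]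
    | cons a u => simp [WS]
  | succ n ih =>
    intro u₀ F
    rw [WS]
    cases u₀ with
    | nil => simp [WS_zero]
    | cons a u =>
      by_cases h : a = 1
      · subst h
        have e1 : ∀ v, (if (1 : Fin 2) :: u = 0 :: v then (1 : ℚ) else 0) * F (0 :: v) = 0 := by
          intro v; simp
        have e2 : ∀ v, (if (1 : Fin 2) :: u = 1 :: v then (1 : ℚ) else 0) * F (1 :: v) =
            (if u = v then (1 : ℚ) else 0) * F (1 :: v) := by
          intro v; simp
        simp only [e1, e2, WS_zero, zero_add]
        rw [ih u (fun v => F (1 :: v))]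
        simp
      · have h0 : a = 0 := by omega
        subst h0
        have e1 : ∀ v, (if (0 : Fin 2) :: u = 1 :: v then (1 : ℚ) else 0) * F (1 :: v) = 0 := by
          intro v; simp
        have e2 : ∀ v, (if (0 : Fin 2) :: u = 0 :: v then (1 : ℚ) else 0) * F (0 :: v) =
            (if u = v then (1 : ℚ) else 0) * F (0 :: v) := by
          intro v; simp
        simp only [e1, e2, WS_zero, add_zero]
        rw [ih u (fun v => F (0 :: v))]
        simp

/-- the pattern of a composition -/
def pc : List ℕ → List Bool
  | [] => []
  | c :: cs => List.replicate (c - 1) false ++ true :: pc cs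

theorem pat_len (u : List (Fin 2)) : (pat u).length = u.count 0 + 1 := by
  unfold pat
  rw [List.length_map, bl_length]

theorem pc_len (β : List ℕ) (h : ∀ x ∈ β, 0 < x) : (pc β).length = β.sum := by
  induction β with
  | nil => rfl
  | cons c cs ih =>
    have h1 := h c (by simp)
    rw [pc, List.length_append, List.length_replicate, List.length_cons,
      ih fun x hx => h x (by simp [hx]), List.sum_cons]
    omega

theorem true_mem (u : List (Fin 2)) (h : true ∈ pat u) : 0 < u.count 1 := by
  induction u with
  | nil => simp [pat_nil] at h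
  | cons i u ih =>
    by_cases hi : i = 1
    · subst hi
      rw [List.count_cons_self]
      omega
    · have h0 : i = 0 := by omega
      subst h0
      rw [pat_zero] at h
      rw [List.count_cons_of_ne (by decide)]
      exact ih (by simpa using h)

theorem A_nil (D : ℕ) : ∀ F : List (Fin 2) → ℚ,
    WS D (fun u => if (pat u).tail = [] then F u else 0) = F (List.replicate D 1) := by
  induction D with
  | zero => intro F; rfl
  | succ D ih =>
    intro F
    rw [WS]
    have e1 : ∀ u, (if (pat (0 :: u)).tail = [] then F (0 :: u) else 0) = 0 := by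
      intro u
      rw [pat_zero, List.tail_cons, if_neg (pat_ne u)]
    have e2 : ∀ u, (if (pat (1 :: u)).tail = [] then F (1 :: u) else 0) =
        if (pat u).tail = [] then F (1 :: u) else 0 := by
      intro u
      rw [pat_one, List.tail_cons]
    simp only [e1, e2]
    rw [WS_zero, zero_add, ih (fun u => F (1 :: u))]
    rfl

theorem B_step (D : ℕ) (cs : List ℕ)
    (hA : ∀ F : List (Fin 2) → ℚ, st (fun l => F (wordX l)) (List.replicate D 0) cs =
      WS (D + cs.sum) (fun u => if (pat u).tail = pc cs then F u else 0)) (c : ℕ) :
    ∀ F : List (Fin 2) → ℚ,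
    WS (D + cs.sum + (c + 1))
      (fun v => if pat v = List.replicate c false ++ true :: pc cs then F v else 0) =
      st (fun l => F (List.replicate c 0 ++ 1 :: wordX l)) (List.replicate D 0) cs := by
  induction c with
  | zero =>
    intro F
    rw [zero_add, WS]
    have e1 : ∀ u, (if pat (0 :: u) = List.replicate 0 false ++ true :: pc cs
        then F (0 :: u) else 0) = 0 := by
      intro u
      rw [pat_zero, if_neg]
      simp
    have e2 : ∀ u, (if pat (1 :: u) = List.replicate 0 false ++ true :: pc cs
        then F (1 :: u) else 0) = if (pat u).tail = pc cs then F (1 :: u) else 0 := by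
      intro u
      rw [pat_one]
      simp
    simp only [e1, e2]
    rw [WS_zero, zero_add, ← hA (fun u => F (1 :: u))]
    rfl
  | succ c ih =>
    intro F
    rw [← add_assoc, WS]
    have e1 : ∀ u, (if pat (0 :: u) = List.replicate (c + 1) false ++ true :: pc cs
        then F (0 :: u) else 0) =
        if pat u = List.replicate c false ++ true :: pc cs then F (0 :: u) else 0 := by
      intro u
      rw [pat_zero, List.replicate_succ]
      simp
    have e2 : ∀ u, (if pat (1 :: u) = List.replicate (c + 1) false ++ true :: pc cs
        then F (1 :: u) else 0) = 0 := by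
      intro u
      rw [pat_one, if_neg]
      rw [List.replicate_succ]
      simp
    simp only [e1, e2]
    rw [WS_zero, add_zero, ih (fun u => F (0 :: u))]
    rfl

theorem A_all (D : ℕ) : ∀ (β : List ℕ) (_ : ∀ x ∈ β, 0 < x) (F : List (Fin 2) → ℚ),
    st (fun l => F (wordX l)) (List.replicate D 0) β =
      WS (D + β.sum) (fun u => if (pat u).tail = pc β then F u else 0) := by
  have h0 : ∀ (D : ℕ) (F : List (Fin 2) → ℚ), st (fun l => F (wordX l)) (List.replicate D 0) [] =
      WS (D + [].sum) (fun u => if (pat u).tail = pc [] then F u else 0) := by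
    intro D F
    rw [st_nil, wordX_zeros]
    exact (A_nil D F).symm
  induction D with
  | zero =>
    intro β hβ F
    cases β with
    | nil => exact h0 0 F
    | cons c cs =>
      rw [List.replicate_zero, st]
      refine (WS_zero _).symm.trans (WS_congr _ _ _ fun u hu => ?_)
      rw [if_neg]
      intro h
      have h1 := pc_len (c :: cs) hβ
      have h2 := pat_len u
      have h3 : ((pat u).tail).length = u.count 0 := by
        rw [List.length_tail, h2]; rfl
      rw [h, h1] at h3
      have h4 : true ∈ pat u := by
        refine List.mem_of_mem_tail ?_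
        rw [h, pc]
        simp
      have h5 := true_mem u h4
      have h6 := Pool.Agent.TH19.DS.count_len u
      rw [zero_add] at hu
      omega
  | succ D ih =>
    intro β hβ F
    cases β with
    | nil => exact h0 (D + 1) F
    | cons c cs =>
      obtain ⟨c', rfl⟩ : ∃ c', c = c' + 1 := ⟨c - 1, by have := hβ c (by simp); omega⟩
      have hcs : ∀ x ∈ cs, 0 < x := fun x hx => hβ x (by simp [hx])
      have e0 : D + 1 + ((c' + 1) :: cs).sum = D + cs.sum + (c' + 1) + 1 := by
        rw [List.sum_cons]; omega
      rw [List.replicate_succ, st, e0, WS]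
      have e1 : ∀ u, (if (pat (0 :: u)).tail = pc ((c' + 1) :: cs) then F (0 :: u) else 0) =
          if pat u = List.replicate c' false ++ true :: pc cs then F (0 :: u) else 0 := by
        intro u
        rw [pat_zero, List.tail_cons]
        rfl
      have e2 : ∀ u, (if (pat (1 :: u)).tail = pc ((c' + 1) :: cs) then F (1 :: u) else 0) =
          if (pat u).tail = pc ((c' + 1) :: cs) then F (1 :: u) else 0 := by
        intro u
        rw [pat_one, List.tail_cons]
      simp only [e1, e2]
      rw [B_step D cs (fun F => ih cs hcs F) c' (fun u => F (0 :: u)), add_comm]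
      congr 1
      · rw [zero_add]
        rfl
      · have h1 := ih ((c' + 1) :: cs) hβ (fun u => F (1 :: u))
        have e3 : D + ((c' + 1) :: cs).sum = D + cs.sum + (c' + 1) := by
          rw [List.sum_cons]; omega
        rw [e3] at h1
        exact h1

theorem exists_comp (τ : List Bool) : ∃ (c : ℕ) (cs : List ℕ), 0 < c ∧ (∀ x ∈ cs, 0 < x) ∧
    pc (c :: cs) = τ ++ [true] ∧ (c :: cs).sum = τ.length + 1 := by
  induction τ with
  | nil => exact ⟨1, [], by omega, by simp, rfl, rfl⟩
  | cons b τ ih =>
    obtain ⟨c, cs, h1, h2, h3, h4⟩ := ih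
    cases b with
    | true =>
      refine ⟨1, c :: cs, by omega, ?_, ?_, ?_⟩
      · intro x hx
        rcases List.mem_cons.1 hx with rfl | hx
        · exact h1
        · exact h2 x hx
      · rw [pc, h3]; rfl
      · rw [List.sum_cons, h4, List.length_cons]; omega
    | false =>
      refine ⟨c + 1, cs, by omega, h2, ?_, ?_⟩
      · obtain ⟨c', rfl⟩ : ∃ c', c = c' + 1 := ⟨c - 1, by omega⟩
        rw [pc] at h3 ⊢
        rw [Nat.add_sub_cancel] at h3 ⊢
        rw [List.replicate_succ, List.cons_append, h3]
        rfl
      · rw [List.sum_cons] at h4 ⊢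
        rw [List.length_cons]
        omega

end Pool.Agent.Zk87.MI
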