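import Pool.Agent.Zk87.MI.Two

/-!
# The lowest layer vanishes if `x₁` satisfies a quadratic equation
-/

set_option autoImplicit false

namespace Pool.Agent.Zk87.MI

open Pool.Agent.H777R4.DM Pool.Agent.Y759.QS
open Pool.Agent.R241.DL (IN blk blk_rot blk_rev blk_one)
open Pool.Agent.Zk87.PL

section

variable {ψ : A} {N k : ℕ}

theorem corr_zero (h : IsDM ψ) (hN : LenHom ψ N) (hm : ∀ u, co ψ u ≠ 0 → k ≤ u.count 0)
    (hk : 2 ≤ k) (v : List ℕ) : corr ψ v = 0 := by
  unfold corr
  split_ifs with hv
  · have h1 : co ψ (List.replicate (v.length - 1) 0 ++ [1]) = 0 := by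
      by_contra hne
      have h2 := hN _ hne
      have h3 := (taskSmall_proof taskTwoB Pool.Agent.H352.DSH.taskTwoC ψ h _ hne).1
      have h4 : v.length - 1 = N - 1 := by
        simp at h2
        omega
      rw [h4] at hne h3
      have h5 : wordX [N - 1] = List.replicate (N - 1) 0 ++ [1] := rfl
      rw [← h5, ← dual_one h (by simpa [h2] using h3.trans (by simp; omega))] at hne
      have h6 := hm _ hne
      rw [List.count_cons_self, List.count_replicate] at h6
      simp at h6
      omega
    rw [h1, mul_zero]
  · rfl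

theorem harmonic' (h : IsDM ψ) (hN : LenHom ψ N) (hm : ∀ u, co ψ u ≠ 0 → k ≤ u.count 0)
    (hk : 2 ≤ k) (β : List ℕ) (hβ : β.length + k = N) (c : List ℕ)
    (hc : c ≠ []) (hpos : ∀ x ∈ c, 0 < x) (hsum : β.sum + c.sum = k) :
    st (fun l => co ψ (wordX l)) β c = 0 := by
  obtain ⟨v, rfl⟩ : ∃ v : List ℕ, c = v.map (· + 1) := by
    refine ⟨c.map (· - 1), ?_⟩
    rw [List.map_map]
    conv_lhs => rw [← List.map_id c]
    apply List.map_congr_left
    intro x hx
    have := hpos x hx
    simp
    omega
  have hv : ∀ v : List ℕ, (v.map (· + 1)).sum = v.sum + v.length := by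
    intro v
    induction v with
    | nil => rfl
    | cons a v ih => simp [ih]; omega
  cases β with
  | nil =>
    refine st_long _ _ _ ?_
    rw [List.length_nil]
    exact List.length_pos_of_ne_nil hc
  | cons a β =>
    cases v with
    | nil => exact absurd rfl hc
    | cons b v =>
      have h1 := stuffle h a β b v
      simp only [corr_zero h hN hm hk, add_zero] at h1
      rw [← h1, eq_comm]
      refine sf_eq_st _ _ _ rfl _ fun w hw hs => ?_
      by_contra hne
      have h4 := hN _ hne
      have h5 := hm _ hne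
      rw [wordX_length] at h4
      rw [wordX_count0] at h5
      rw [hv] at hsum
      omega

/-- the sum of the coefficients with a given pattern of nonempty blocks -/
noncomputable def Ga (ψ : A) (N : ℕ) (δ : List Bool) : ℚ :=
  WS N (fun u => if pat u = δ then co ψ u else 0)

theorem Ga_flip (h : IsDM ψ) (hN : LenHom ψ N) (hm : ∀ u, co ψ u ≠ 0 → k ≤ u.count 0)
    (hk : 2 ≤ k) (hkN : k ≤ N) (τ : List Bool) (hτ : τ.length + 1 = k) :
    Ga ψ N (false :: (τ ++ [true])) + Ga ψ N (true :: (τ ++ [true])) = 0 := by
  obtain ⟨c, cs, h1, h2, h3, h4⟩ := exists_comp τ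
  have hpos : ∀ x ∈ c :: cs, 0 < x := by
    intro x hx
    rcases List.mem_cons.1 hx with rfl | hx
    · exact h1
    · exact h2 x hx
  have h5 := harmonic' h hN hm hk (List.replicate (N - k) 0) (by simp; omega) (c :: cs) (by simp)
    hpos (by rw [h4]; simp; omega)
  rw [A_all (N - k) (c :: cs) hpos (co ψ), h3, h4] at h5
  have e0 : N - k + (τ.length + 1) = N := by omega
  rw [e0] at h5
  unfold Ga
  rw [← WS_add]
  refine (WS_congr _ _ _ fun u _ => ?_).trans h5
  cases hp : pat u with
  | nil => exact absurd hp (pat_ne u)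
  | cons b l =>
    rw [List.tail_cons]
    cases b with
    | true => simp
    | false => simp

theorem WS_lext (hN : LenHom ψ N) (F : List (Fin 2) → ℚ) :
    WS N (fun u => co ψ u * F u) = lext F ψ := by
  let G : A →ₗ[ℚ] ℚ :=
    { toFun := fun φ => WS N (fun u => co φ u * F u)
      map_add' := by intro p q; simp only [co_add, add_mul, WS_add]
      map_smul' := by
        intro p q
        simp only [co_smul, mul_assoc, WS_smul, RingHom.id_apply, smul_eq_mul] }
  have h : G = lext (fun u => if u.length = N then F u else 0) := by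
    refine lin_ext fun u => ?_
    rw [lext_wd, ← WS_ind]
    show WS N (fun v => co (wd u) v * F v) = _
    refine WS_congr _ _ _ fun v _ => ?_
    rw [co_wd]
  have h2 : G ψ = lext F ψ := by
    rw [h]
    refine lext_congr' fun u hu => ?_
    rw [if_pos (hN u hu)]
  exact h2

theorem lext_eq_E {V : Type} [AddCommGroup V] [Module ℚ V] (hN : LenHom ψ N) (k : ℕ)
    (F : List (Fin 2) → V) : lext (fun u => if u.count 0 = k then F u else 0) ψ =
      E (Finset.range (N + 1)) (k + 1) (fun L => co ψ (blk L) • F (blk L)) := by
  let G : A →ₗ[ℚ] V :=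
    { toFun := fun φ => E (Finset.range (N + 1)) (k + 1) (fun L => co φ (blk L) • F (blk L))
      map_add' := by intro p q; simp only [co_add, add_smul, E_add]
      map_smul' := by
        intro p q
        simp only [co_smul, mul_smul, RingHom.id_apply]
        rw [E_smul] }
  have h : G = lext fun u => if (bl u).length = k + 1 ∧ ∀ y ∈ bl u, y ∈ Finset.range (N + 1)
      then F (blk (bl u)) else 0 := by
    refine lin_ext fun u => ?_
    rw [lext_wd, ← E_ind (Finset.range (N + 1)) (k + 1) (bl u) (fun L => F (blk L))]
    refine E_congr _ _ _ _ fun L hL => ?_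
    rw [co_wd]
    by_cases h : bl u = L
    · rw [if_pos h, if_pos (by rw [← h, blk_bl]), one_smul]
    · rw [if_neg h, if_neg, zero_smul]
      rintro rfl
      apply h
      rw [bl_blk]
      rintro rfl
      simp at hL
  have h2 : G ψ = lext (fun u => if u.count 0 = k then F u else 0) ψ := by
    rw [h]
    refine lext_congr' fun u hu => ?_
    rw [blk_bl, bl_length]
    by_cases hc : u.count 0 = k
    · rw [if_pos hc, if_pos]
      refine ⟨by rw [hc], fun y hy => ?_⟩
      rw [Finset.mem_range]
      have h3 := bl_sum u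
      have h4 := List.single_le_sum (l := bl u) (by simp) y hy
      have h5 := hN u hu
      have h6 : u.count 1 ≤ u.length := List.count_le_length
      omega
    · rw [if_neg hc, if_neg]
      rintro ⟨h3, -⟩
      omega
  exact h2.symm

theorem Ga_E (hN : LenHom ψ N) (δ : List Bool) (hδ : δ.length = k + 1) :
    Ga ψ N δ = E (Finset.range (N + 1)) (k + 1)
      (fun L => if L.map nz = δ then co ψ (blk L) else 0) := by
  have h1 : Ga ψ N δ = WS N (fun u => co ψ u * (if pat u = δ then 1 else 0)) := by
    unfold Ga
    refine WS_congr _ _ _ fun u _ => ?_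
    split_ifs <;> simp
  rw [h1, WS_lext hN]
  have h2 : lext (fun u => if pat u = δ then (1 : ℚ) else 0) ψ =
      lext (fun u => if u.count 0 = k then (if pat u = δ then (1 : ℚ) else 0) else 0) ψ := by
    refine lext_congr' fun u _ => ?_
    by_cases h : pat u = δ
    · have h3 := pat_len u
      rw [h, hδ] at h3
      rw [if_pos (show u.count 0 = k by omega)]
    · simp [h]
  rw [h2, lext_eq_E hN k]
  refine E_congr _ _ _ _ fun L hL => ?_
  have h3 : pat (blk L) = L.map nz := by
    unfold pat
    rw [bl_blk]
    rintro rfl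
    simp at hL
  rw [h3]
  split_ifs <;> simp

theorem Ga_rot (h : IsDM ψ) (hN : LenHom ψ N) (hm : ∀ u, co ψ u ≠ 0 → k ≤ u.count 0)
    (hk : 2 ≤ k) (δ : List Bool) (hδ : δ.length = k + 1) :
    Ga ψ N (δ.rotate 1) = Ga ψ N δ := by
  rw [Ga_E hN δ hδ, Ga_E hN (δ.rotate 1) (by simpa using hδ), ← E_rot]
  refine E_congr _ _ _ _ fun L hL => ?_
  rw [List.map_rotate, blk_rot h hN hm hk 1 L hL]
  by_cases he : L.map nz = δ
  · rw [if_pos he, if_pos (by rw [he])]
  · rw [if_neg he, if_neg]
    intro h'
    exact he (List.rotate_injective 1 h')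

theorem Ga_single (h : IsDM ψ) (hN : LenHom ψ N) (hm : ∀ u, co ψ u ≠ 0 → k ≤ u.count 0)
    (hk : 2 ≤ k) : Ga ψ N (true :: List.replicate k false) = 0 := by
  rw [Ga_E (k := k) hN _ (by simp)]
  refine (E_congr _ _ _ (fun _ => 0) fun L hL => ?_).trans (E_zero _ _)
  split_ifs with he
  · cases L with
    | nil => simp at hL
    | cons a L =>
      have h1 : L = List.replicate k 0 := by
        rw [List.map_cons, List.cons.injEq] at he
        rw [List.eq_replicate_iff]
        refine ⟨by simpa using hL, fun x hx => ?_⟩
        have h2 : nz x ∈ L.map nz := List.mem_map_of_mem hx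
        rw [he.2] at h2
        have h3 := List.eq_of_mem_replicate h2
        simpa [nz] using h3
      subst h1
      obtain ⟨k', rfl⟩ : ∃ k', k = k' + 1 := ⟨k - 1, by omega⟩
      have h4 := blk_one h hN hm hk a 0 (List.replicate k' 0) (by simp)
      rw [IN_rep] at h4
      have h5 : (k' + 1 : ℚ) ≠ 0 := by positivity
      exact (mul_eq_zero.1 h4).resolve_left h5
  · rfl

theorem Ga_all_false (h : IsDM ψ) (hN : LenHom ψ N) :
    Ga ψ N (List.replicate (k + 1) false) = 0 := by
  rw [Ga_E (k := k) hN _ (by simp)]
  refine (E_congr _ _ _ (fun _ => 0) fun L hL => ?_).trans (E_zero _ _)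
  split_ifs with he
  · have h1 : L = List.replicate (k + 1) 0 := by
      rw [List.eq_replicate_iff]
      refine ⟨hL, fun x hx => ?_⟩
      have h2 : nz x ∈ L.map nz := List.mem_map_of_mem hx
      rw [he] at h2
      have h3 := List.eq_of_mem_replicate h2
      simpa [nz] using h3
    subst h1
    by_contra hne
    have h2 := (taskSmall_proof taskTwoB Pool.Agent.H352.DSH.taskTwoC ψ h _ hne).2
    have h3 : ∀ n : ℕ, (blk (List.replicate (n + 1) 0)).count 1 = 0 := by
      intro n
      induction n with
      | zero => rfl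
      | succ n ih =>
        rw [List.replicate_succ, List.replicate_succ, blk, ← List.replicate_succ]
        rw [List.replicate_zero, List.nil_append, List.count_cons_of_ne (by decide)]
        exact ih
    rw [h3] at h2
    omega
  · rfl

theorem Ga_true (h : IsDM ψ) (hN : LenHom ψ N) (hm : ∀ u, co ψ u ≠ 0 → k ≤ u.count 0)
    (hk : 2 ≤ k) (hkN : k ≤ N) (ε : List Bool) (hε : ε.length = k) : Ga ψ N (true :: ε) = 0 := by
  have step : ∀ (b : Bool) (τ : List Bool), τ.length + 1 = k →
      (Ga ψ N (true :: b :: τ) = 0 ↔ Ga ψ N (true :: (τ ++ [true])) = 0) := by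
    intro b τ hτ
    have h1 := Ga_flip h hN hm hk hkN τ hτ
    have h2 := Ga_rot h hN hm hk (true :: b :: τ) (by simp; omega)
    have e : (true :: b :: τ).rotate 1 = b :: (τ ++ [true]) := by
      rw [List.rotate_cons_succ, List.rotate_zero]; rfl
    rw [e] at h2
    rw [← h2]
    cases b with
    | true => rfl
    | false =>
      constructor
      · intro h3; linarith
      · intro h3; linarith
  have all : ∀ (ε : List Bool) (j : ℕ), ε.length + j = k →
      (Ga ψ N (true :: (ε ++ List.replicate j true)) = 0 ↔
        Ga ψ N (true :: List.replicate k true) = 0) := by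
    intro ε
    induction ε with
    | nil =>
      intro j hj
      have : j = k := by simpa using hj
      subst this
      rfl
    | cons b τ ih =>
      intro j hj
      have hj' : τ.length + (j + 1) = k := by
        rw [List.length_cons] at hj; omega
      rw [List.cons_append, step b (τ ++ List.replicate j true) (by simp; omega),
        ← ih (j + 1) hj', List.append_assoc, ← List.replicate_succ']
  have h1 := all (List.replicate k false) 0 (by simp)
  rw [List.replicate_zero, List.append_nil] at h1
  have h2 := h1.1 (Ga_single h hN hm hk)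
  have h3 := all ε 0 (by simpa using hε)
  rw [List.replicate_zero, List.append_nil] at h3
  exact h3.2 h2

theorem Ga_rotate (h : IsDM ψ) (hN : LenHom ψ N) (hm : ∀ u, co ψ u ≠ 0 → k ≤ u.count 0)
    (hk : 2 ≤ k) (δ : List Bool) (hδ : δ.length = k + 1) (j : ℕ) :
    Ga ψ N (δ.rotate j) = Ga ψ N δ := by
  induction j with
  | zero => rw [List.rotate_zero]
  | succ j ih => rw [← List.rotate_rotate, Ga_rot h hN hm hk _ (by simpa using hδ), ih]

/-- **The sum of the coefficients with given nonempty blocks vanishes.** -/
theorem Ga_zero (h : IsDM ψ) (hN : LenHom ψ N) (hm : ∀ u, co ψ u ≠ 0 → k ≤ u.count 0)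
    (hk : 2 ≤ k) (δ : List Bool) (hδ : δ.length = k + 1) : Ga ψ N δ = 0 := by
  by_cases hkN : k ≤ N
  · by_cases ht : true ∈ δ
    · obtain ⟨l1, l2, rfl⟩ := List.append_of_mem ht
      have h1 := Ga_rotate h hN hm hk (l1 ++ true :: l2) hδ l1.length
      rw [List.rotate_append_length_eq] at h1
      rw [← h1]
      refine Ga_true h hN hm hk hkN (l2 ++ l1) ?_
      simp at hδ ⊢
      omega
    · have h1 : δ = List.replicate (k + 1) false := by
        rw [List.eq_replicate_iff]
        refine ⟨hδ, fun b hb => ?_⟩
        cases b with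
        | true => exact absurd hb ht
        | false => rfl
      rw [h1]
      exact Ga_all_false h hN
  · rw [Ga_E hN δ hδ]
    refine (E_congr _ _ _ (fun _ => 0) fun L hL => ?_).trans (E_zero _ _)
    split_ifs
    · by_contra hne
      have h1 := hm _ hne
      have h2 := hN _ hne
      have h3 : (blk L).count 0 ≤ (blk L).length := List.count_le_length
      omega
    · rfl

end

end Pool.Agent.Zk87.MI
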