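import Pool.Agent.Zk87.MI.Two2

/-!
# Evaluation at elements which satisfy a quadratic equation
-/

set_option autoImplicit false

namespace Pool.Agent.Zk87.MI

open Pool.Agent.H777R4.DM Pool.Agent.Y759.QS
open Pool.Agent.R241.DL (IN blk blk_rot blk_rev blk_one)
open Pool.Agent.Zk87.PL
open Polynomial

attribute [local instance 100] LieRing.ofAssociativeRing

theorem E_pat {V : Type} [AddCommGroup V] [Module ℚ V] (s : Finset ℕ) (m : ℕ) :
    ∀ (C : List ℕ → ℚ), (∀ p : List Bool, p.length = m →
      E s m (fun L => if L.map nz = p then C L else 0) = 0) →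
    ∀ H : List Bool → V, E s m (fun L => C L • H (L.map nz)) = 0 := by
  induction m with
  | zero =>
    intro C h H
    have h1 := h [] rfl
    simp [E] at h1 ⊢
    exact Or.inl h1
  | succ m ih =>
    intro C h H
    have e : ∀ i, E s m (fun L => C (i :: L) • H ((i :: L).map nz)) =
        E s m (fun L => (if nz i = true then C (i :: L) else 0) • H (true :: L.map nz)) +
          E s m (fun L => (if nz i = false then C (i :: L) else 0) • H (false :: L.map nz)) := by
      intro i
      rw [← E_add]
      refine E_congr _ _ _ _ fun L _ => ?_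
      cases hi : nz i with
      | true => simp [hi]
      | false => simp [hi]
    rw [E]
    simp only [e]
    rw [Finset.sum_add_distrib, ← E_sum, ← E_sum]
    simp only [← Finset.sum_smul]
    have key : ∀ b : Bool, E s m (fun L => (∑ i ∈ s, if nz i = b then C (i :: L) else 0) •
        H (b :: L.map nz)) = 0 := by
      intro b
      refine ih (fun L => ∑ i ∈ s, if nz i = b then C (i :: L) else 0) ?_
        (fun p => H (b :: p))
      intro p hp
      have h1 := h (b :: p) (by simp [hp])
      rw [E, ← E_sum] at h1
      refine (E_congr _ _ _ _ fun L _ => ?_).trans h1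
      by_cases hL : L.map nz = p
      · rw [if_pos hL]
        refine Finset.sum_congr rfl fun i _ => ?_
        simp [hL]
      · rw [if_neg hL]
        refine (Finset.sum_eq_zero fun i _ => ?_).symm
        rw [if_neg]
        intro h2
        rw [List.map_cons, List.cons.injEq] at h2
        exact hL h2.2
    rw [key true, key false, add_zero]

section

variable {R : Type} [Ring R] [Algebra ℚ R]

theorem Ev_shift' (a b z : R) (hz : ∀ r : R, z * r = r * z) {ψ : A} (h : ψ ∈ LieX) :
    ∃ c : ℚ, Ev (a + z) b ψ = Ev a b ψ + c • monomial 0 z := by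
  have hz' : ∀ p : R[X], monomial 0 z * p = p * monomial 0 z := by
    intro p
    induction p using Polynomial.induction_on' with
    | add p q hp hq => rw [mul_add, add_mul, hp, hq]
    | monomial n r => rw [monomial_mul_monomial, monomial_mul_monomial, add_comm, hz]
  unfold LieX at h
  induction h using LieSubalgebra.lieSpan_induction with
  | mem y hy =>
    rcases hy with rfl | rfl
    · refine ⟨0, ?_⟩
      rw [Ev_x, Ev_x]
      simp
    · refine ⟨1, ?_⟩
      rw [Ev_x, Ev_x]
      simp
  | zero => exact ⟨0, by simp⟩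
  | add y w _ _ hy hw =>
    obtain ⟨c, hc⟩ := hy
    obtain ⟨d, hd⟩ := hw
    refine ⟨c + d, ?_⟩
    rw [map_add, map_add, hc, hd, add_smul]
    abel
  | smul r y _ hy =>
    obtain ⟨c, hc⟩ := hy
    refine ⟨r * c, ?_⟩
    rw [map_smul, map_smul, hc, smul_add, mul_smul]
  | lie y w _ _ hy hw =>
    obtain ⟨c, hc⟩ := hy
    obtain ⟨d, hd⟩ := hw
    refine ⟨0, ?_⟩
    rw [LieRing.of_associative_ring_bracket, map_sub, map_mul, map_mul, map_sub, map_mul, map_mul,
      hc, hd, zero_smul, add_zero]
    simp only [add_mul, mul_add, smul_mul_assoc, mul_smul_comm, smul_add, smul_smul,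
      hz' (Ev a b y), hz' (Ev a b w), mul_comm d c]
    abel

theorem pt_shift' (k : ℕ) (hk : 2 ≤ k) (a b z : R) (hz : ∀ r : R, z * r = r * z) {ψ : A}
    (h : ψ ∈ LieX) : pt k (a + z) b ψ = pt k a b ψ := by
  obtain ⟨c, hc⟩ := Ev_shift' a b z hz h
  have := congrArg (fun p => p.coeff k) hc
  simp only [coeff_add, coeff_smul, coeff_monomial] at this
  rw [Ev_coeff, Ev_coeff, if_neg (by omega), smul_zero, add_zero] at this
  exact this

/-- the value of a pattern -/
def pv (a b : R) : List Bool → R
  | [] => 1
  | x :: p => (if x then a else 1) * (p.map fun y => b * (if y then a else 1)).prod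

theorem pow_quad (a d : R) (hq : a * a = d * a) (x : ℕ) :
    a ^ x = d ^ (x - 1) * (if nz x then a else 1) := by
  cases x with
  | zero => simp [nz]
  | succ x =>
    induction x with
    | zero => simp [nz]
    | succ x ih =>
      have e1 : ∀ y, nz (y + 1) = true := by intro y; simp [nz]
      rw [pow_succ, ih]
      simp only [e1, if_true, Nat.add_sub_cancel]
      rw [mul_assoc, hq, pow_succ, mul_assoc]

theorem map_quad (a b d : R) (hd : ∀ r : R, d * r = r * d) (hq : a * a = d * a) (L : List ℕ) :
    (L.map fun i => b * a ^ i).prod = d ^ (L.map fun i => i - 1).sum *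
      ((L.map nz).map fun y => b * (if y then a else 1)).prod := by
  have hdp : ∀ (n : ℕ) (r : R), d ^ n * r = r * d ^ n := by
    intro n r
    exact (Commute.pow_left (hd r : Commute d r) n).eq
  induction L with
  | nil => simp
  | cons x L ih =>
    rw [List.map_cons, List.prod_cons, ih, pow_quad a d hq x, List.map_cons, List.sum_cons,
      List.map_cons, List.map_cons, List.prod_cons, pow_add]
    have h1 : b * (d ^ (x - 1) * (if nz x then a else 1)) =
        d ^ (x - 1) * (b * (if nz x then a else 1)) := by
      rw [← mul_assoc, ← hdp, mul_assoc]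
    rw [h1]
    have h2 : ∀ p q r t : R, (∀ u, t * u = u * t) → p * q * (t * r) = p * t * (q * r) := by
      intro p q r t ht
      rw [← mul_assoc, mul_assoc p q t, ← ht q, ← mul_assoc, mul_assoc]
    exact h2 _ _ _ _ (hdp _)

theorem wv_quad (a b d : R) (hd : ∀ r : R, d * r = r * d) (hq : a * a = d * a) (L : List ℕ)
    (hL : L ≠ []) : wv a b (blk L) = d ^ (L.map fun i => i - 1).sum * pv a b (L.map nz) := by
  have hwv : ∀ (x : ℕ) (L : List ℕ),
      wv a b (blk (x :: L)) = a ^ x * (L.map fun i => b * a ^ i).prod := by
    intro x L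
    induction L generalizing x with
    | nil => simp [blk, wv]
    | cons y L ih =>
      have e1 : wv a b (blk (x :: y :: L)) = a ^ x * (b * wv a b (blk (y :: L))) := by
        rw [blk]
        simp [wv]
      rw [e1, ih]
      simp [mul_assoc]
  cases L with
  | nil => exact absurd rfl hL
  | cons x L =>
    rw [hwv, map_quad a b d hd hq, pow_quad a d hq x, List.map_cons, List.map_cons,
      List.sum_cons, pow_add, pv]
    have hdp : ∀ (n : ℕ) (r : R), d ^ n * r = r * d ^ n := by
      intro n r
      exact (Commute.pow_left (hd r : Commute d r) n).eq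
    have h2 : ∀ p q r t : R, (∀ u, t * u = u * t) → p * q * (t * r) = p * t * (q * r) := by
      intro p q r t ht
      rw [← mul_assoc, mul_assoc p q t, ← ht q, ← mul_assoc, mul_assoc]
    exact h2 _ _ _ _ (hdp _)

theorem count_true (L : List ℕ) :
    (L.map fun i => i - 1).sum + (L.map nz).count true = L.sum := by
  induction L with
  | nil => rfl
  | cons x L ih =>
    rw [List.map_cons, List.sum_cons, List.map_cons, List.sum_cons, List.count_cons]
    cases x with
    | zero => simp [nz]; omega
    | succ x => simp [nz]; omega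

variable {ψ : A} {N k : ℕ}

theorem pt_quad (h : IsDM ψ) (hN : LenHom ψ N) (hm : ∀ u, co ψ u ≠ 0 → k ≤ u.count 0)
    (hk : 2 ≤ k) (a b d : R) (hd : ∀ r : R, d * r = r * d) (hq : a * a = d * a) :
    pt k a b ψ = 0 := by
  rw [pt_eq_E hN]
  have h1 : ∀ L : List ℕ, L.length = k + 1 → co ψ (blk L) • wv a b (blk L) =
      co ψ (blk L) • (d ^ (N - k - (L.map nz).count true) * pv a b (L.map nz)) := by
    intro L hL
    have hL0 : L ≠ [] := by rintro rfl; simp at hL
    by_cases h2 : co ψ (blk L) = 0
    · rw [h2, zero_smul, zero_smul]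
    · have h3 := hN _ h2
      have h4 := bl_sum (blk L)
      have h5 := bl_length (blk L)
      rw [bl_blk L hL0] at h4 h5
      have h6 := count_true L
      have h7 : (L.map fun i => i - 1).sum = N - k - (L.map nz).count true := by omega
      rw [wv_quad a b d hd hq L hL0, h7]
  rw [E_congr _ _ _ _ h1]
  refine E_pat _ _ (fun L => co ψ (blk L)) ?_
    (fun p => d ^ (N - k - p.count true) * pv a b p)
  intro p hp
  rw [← Ga_E hN p hp]
  exact Ga_zero h hN hm hk p hp

/-- **The lowest layer vanishes if `x₁` satisfies a quadratic equation.** -/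
theorem pt_quadratic (h : IsDM ψ) (hN : LenHom ψ N) (hm : ∀ u, co ψ u ≠ 0 → k ≤ u.count 0)
    (hk : 2 ≤ k) (a b y z : R) (hy : ∀ r : R, y * r = r * y) (hz : ∀ r : R, z * r = r * z)
    (hq : (a - y) * (a - z) = 0) : pt k a b ψ = 0 := by
  have h1 := pt_shift' k hk (a - y) b y hy h.mem
  rw [sub_add_cancel] at h1
  rw [h1]
  refine pt_quad h hN hm hk (a - y) b (z - y) (fun r => by rw [sub_mul, mul_sub, hy, hz]) ?_
  have h2 : (a - y) * (a - y) = (a - y) * (z - y) := by
    have : (a - y) * (a - y) = (a - y) * (a - z) + (a - y) * (z - y) := by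
      rw [← mul_add]
      congr 1
      abel
    rw [this, hq, zero_add]
  rw [h2, mul_sub, ← hz, ← hy, ← sub_mul]

end

end Pool.Agent.Zk87.MI
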